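import Pool.Agent.TH210.MP.Ordm

/-!
The estimates at the prime divisors which dominate `Z`, and at the other ones (helper210).
-/

set_option autoImplicit false

open FF Module Pool.Agent.W603.LV Pool.Agent.W602.GT Pool.Agent.W602.Cov Pool.Agent.W602.Cov.G
open Pool.Agent.W168.CG.PGR Pool.Agent.TH152.AC Pool.Agent.TH756.AR Pool.Agent.TH756.PR
open Pool.Agent.TH143.GT

namespace Pool.Agent.TH210.MP

/-- real lower bounds for the order -/
def RGe {k K : Type} [Field k] [Field K] [Algebra k K] (P : Place k K) (a : ℝ) (f : K) : Prop :=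
  f = 0 ∨ a ≤ (P.ord f : ℝ)

section rge

variable {k K : Type} [Field k] [Field K] [Algebra k K] {P : Place k K} {a b : ℝ} {f g : K}

theorem RGe.mul (hf : RGe P a f) (hg : RGe P b g) : RGe P (a + b) (f * g) := by
  rcases hf with hf | hf
  · exact Or.inl (by rw [hf, zero_mul])
  rcases hg with hg | hg
  · exact Or.inl (by rw [hg, mul_zero])
  by_cases hf0 : f = 0
  · exact Or.inl (by rw [hf0, zero_mul])
  by_cases hg0 : g = 0
  · exact Or.inl (by rw [hg0, mul_zero])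
  right
  rw [P.ord_mul hf0 hg0]
  push_cast
  linarith

theorem RGe.mono (h : b ≤ a) (hf : RGe P a f) : RGe P b f := by
  rcases hf with hf | hf
  · exact Or.inl hf
  · exact Or.inr (le_trans h hf)

theorem RGe.one : RGe P 0 (1 : K) := Or.inr (by rw [P.ord_one]; simp)

theorem RGe.pow (hf : RGe P a f) (m : ℕ) : RGe P (m * a) (f ^ m) := by
  induction m with
  | zero => simpa using RGe.one
  | succ m ih =>
    rw [pow_succ]
    refine (ih.mul hf).mono (le_of_eq ?_)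
    push_cast
    ring

theorem RGe.of_ge {c : ℤ} (h : Ge P c f) : RGe P c f := by
  rcases h with h | h
  · exact Or.inl h
  · exact Or.inr (by exact_mod_cast h)

end rge

section num

variable {r : ℕ} {q : Fin r → ℕ}

theorem cast_sum' (d : Fin r → ℕ) (v : ∀ i, Fin (q i) → ℕ) (k : ∀ i, Fin (q i)) {T : ℕ}
    {c A : ℤ} (h : (T : ℚ) * ∑ i, (v i (k i) : ℚ) / d i + T * A ≤ c) :
    (T : ℝ) * ∑ i, (v i (k i) : ℝ) / d i + T * A ≤ c := by
  have h1 : (((T : ℚ) * ∑ i, (v i (k i) : ℚ) / d i + T * A : ℚ) : ℝ) ≤ ((c : ℚ) : ℝ) := by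
    exact_mod_cast h
  push_cast at h1
  exact h1

/-- the numerical estimate -/
theorem num_est (d : Fin r → ℕ) (hd : ∀ i, 1 ≤ d i) (v : ∀ i, Fin (q i) → ℕ)
    (k0 : ∀ i, Fin (q i)) {T s c β δ : ℝ} (hT : 0 ≤ T) (hs : 1 < s)
    (hdT : ∀ i, (d i : ℝ) ≤ T * (1 - 1 / s))
    (h1 : ∀ k : ∀ i, Fin (q i), T * ∑ i, (v i (k i) : ℝ) / d i + T * β ≤ c + T)
    (h2 : ∃ k : ∀ i, Fin (q i), s * (1 - δ) ≤ s * β + ∑ i, (v i (k i) : ℝ) / d i) :
    ∑ i, (v i (k0 i) : ℝ) ≤ c + T * δ := by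
  classical
  obtain ⟨k1, hk1⟩ := h2
  have hs0 : 0 < s := by linarith
  obtain ⟨k, hkdef⟩ : ∃ k : ∀ i, Fin (q i),
    k = fun i => if v i (k0 i) ≤ v i (k1 i) then k1 i else k0 i := ⟨_, rfl⟩
  have hka : ∀ i, v i (k0 i) ≤ v i (k i) := by
    intro i
    rw [hkdef]
    dsimp only
    split_ifs with h'
    · exact h'
    · exact le_rfl
  have hkb : ∀ i, v i (k1 i) ≤ v i (k i) := by
    intro i
    rw [hkdef]
    dsimp only
    split_ifs with h'
    · exact le_rfl
    · omega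
  obtain ⟨S, hSdef⟩ : ∃ S : ℝ, S = ∑ i, (v i (k i) : ℝ) / d i := ⟨_, rfl⟩
  have hS1 : s * (1 - δ) ≤ s * β + S := by
    have h3 : ∑ i, (v i (k1 i) : ℝ) / d i ≤ S := by
      rw [hSdef]
      refine Finset.sum_le_sum fun i _ => ?_
      have hdi : (0 : ℝ) < d i := by exact_mod_cast hd i
      exact div_le_div_of_nonneg_right (by exact_mod_cast hkb i) hdi.le
    linarith
  have h3 : T * S + T * β ≤ c + T := by
    rw [hSdef]
    exact h1 k
  have h4 : 1 - δ ≤ β + S / s := by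
    have h5 : s * (β + S / s) = s * β + S := by
      field_simp
    exact le_of_mul_le_mul_left (by rw [h5]; exact hS1) hs0
  have h6 : T * (1 - δ) ≤ T * (β + S / s) := mul_le_mul_of_nonneg_left h4 hT
  have h9 : ∑ i, (v i (k0 i) : ℝ) ≤ T * (1 - 1 / s) * S := by
    rw [hSdef, Finset.mul_sum]
    refine Finset.sum_le_sum fun i _ => ?_
    have hdi : (0 : ℝ) < d i := by exact_mod_cast hd i
    have h11 : (v i (k0 i) : ℝ) ≤ v i (k i) := by exact_mod_cast hka i
    rw [mul_div_assoc', le_div_iff₀ hdi]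
    calc (v i (k0 i) : ℝ) * d i ≤ v i (k i) * (T * (1 - 1 / s)) :=
          mul_le_mul h11 (hdT i) hdi.le (Nat.cast_nonneg _)
      _ = T * (1 - 1 / s) * v i (k i) := by ring
  have h12 : T * (1 - 1 / s) * S = T * S - T * (S / s) := by
    field_simp
  linarith

end num

section quot

variable {r : ℕ} {n q : Fin r → ℕ} {K : Type} [Field K] [Algebra ℂ K]
  {ℓ : ∀ i, Fin (q i) → Form (n i)} {x : ∀ i, Fin (n i + 1) → K}

theorem ge_quot {P : Place ℂ K} (hlx : ∀ i k, lf (ℓ i k) (x i) ≠ 0) {a : Fin r → ℤ}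
    {v : ∀ i, Fin (q i) → ℕ} (hv : ∀ i k, P.ord (lf (ℓ i k) (x i)) = a i + v i k)
    (hx : ∀ i j, Ge P (a i) (x i j)) (k0 : ∀ i, Fin (q i)) (pk : ∀ i, Fin (n i + 1)) :
    RGe P (-∑ i, (v i (k0 i) : ℝ)) (∏ i, x i (pk i) / lf (ℓ i (k0 i)) (x i)) := by
  have h5 : ∀ i, Ge P (-(v i (k0 i) : ℤ)) (x i (pk i) / lf (ℓ i (k0 i)) (x i)) := by
    intro i
    have h6 := ge_div (hlx i (k0 i)) (hx i (pk i))
    rw [hv i (k0 i)] at h6
    exact h6.mono (by linarith)
  have h7 := Ge.prod Finset.univ (fun i => x i (pk i) / lf (ℓ i (k0 i)) (x i))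
    (fun i => -(v i (k0 i) : ℤ)) (fun i _ => h5 i)
  refine (RGe.of_ge h7).mono (le_of_eq ?_)
  rw [Finset.sum_neg_distrib]
  push_cast
  ring

end quot

variable {r N : ℕ} {n : Fin (r + 1) → ℕ} {F K : Type} [Field F] [Field K] [Algebra ℂ F]
  [Algebra ℂ K] [Algebra F K] [IsScalarTower ℂ F K]
  (e : ((i : Fin (r + 1)) × Fin (n i)) ≃ Fin N) {q : Fin r → ℕ}
  {ℓ : ∀ i : Fin r, Fin (q i) → Form (n i.succ)}
  {y : Fin (n 0) → F} {x : ∀ i : Fin r, Fin (n i.succ + 1) → K}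

/-- the equivalence of the coordinates -/
def gg (n : Fin (r + 1) → ℕ) : ((i : Fin r) × Fin (n i.succ)) ⊕ Fin (n 0) ≃
    (i : Fin (r + 1)) × Fin (n i) where
  toFun := Sum.elim (fun a => ⟨a.1.succ, a.2⟩) (fun b => ⟨0, b⟩)
  invFun := fun a => Fin.cases
    (motive := fun i => Fin (n i) → ((i : Fin r) × Fin (n i.succ)) ⊕ Fin (n 0))
    (fun b => Sum.inr b) (fun i b => Sum.inl ⟨i, b⟩) a.1 a.2
  left_inv := by
    rintro (⟨i, b⟩ | b) <;> rfl
  right_inv := by
    rintro ⟨i, b⟩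
    revert b
    refine Fin.cases (fun b => rfl) (fun i b => rfl) i

theorem basis_co (hy : IsTranscendenceBasis ℂ y)
    (hbas : IsTranscendenceBasis F (aff (n := fun i : Fin r => n i.succ) x)) :
    IsTranscendenceBasis ℂ (uu e (co y x)) := by
  have h1 := hy.sumElim_comp hbas
  have h2 : aff (co y x) ∘ gg n = Sum.elim (aff (n := fun i : Fin r => n i.succ) x)
      (algebraMap F K ∘ y) := by
    funext a
    rcases a with a | b
    · rfl
    · exact aff_zero b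
  rw [← h2] at h1
  have h3 := h1.comp_equiv (gg n).symm
  have h4 : (aff (co y x) ∘ gg n) ∘ (gg n).symm = aff (co y x) := by
    funext a
    simp
  rw [h4] at h3
  exact h3.comp_equiv e.symm

theorem co_ne_zero (hx0 : ∀ i, x i 0 ≠ 0) (i : Fin (r + 1)) : (co y x) i 0 ≠ 0 := by
  revert i
  refine Fin.cases ?_ fun i => hx0 i
  rw [co_zero_zero]
  exact one_ne_zero

end Pool.Agent.TH210.MP
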