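import Pool.Agent.TH210.MP.Main

/-!
The final form (helper210).
-/

set_option autoImplicit false

open FF Module Pool.Agent.W603.LV Pool.Agent.W602.GT Pool.Agent.W602.Cov Pool.Agent.W602.Cov.G
open Pool.Agent.W168.CG.PGR Pool.Agent.TH152.AC Pool.Agent.TH756.AR Pool.Agent.TH756.PR
open Pool.Agent.TH143.GT

namespace Pool.Agent.TH210.MP

variable {r m : ℕ} {n : Fin r → ℕ} {F K : Type} [Field F] [Field K] [Algebra ℂ F]
  [Algebra ℂ K] [Algebra F K] [IsScalarTower ℂ F K] {q : Fin r → ℕ}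
  {ℓ : ∀ i : Fin r, Fin (q i) → Form (n i)} {x : ∀ i : Fin r, Fin (n i + 1) → K}

theorem slack_of (hn : ∀ i, 1 ≤ n i) (hℓ : ∀ i k, ℓ i k ≠ 0) (hr : ∀ i, ¬ Reducible (ℓ i))
    {d : Fin r → ℕ} (hd : ∀ i, d i = n i + 2 ∨ (d i = n i + 1 ∧ ¬ Simplicial (ℓ i))) (i : Fin r) :
    Slack (ℓ i) (d i) := by
  rcases hd i with h | ⟨h, h'⟩
  · rw [h]
    exact slack_of_irred (hn i) (hℓ i) (hr i)
  · rw [h]
    exact slack_of_not_simplicial (hn i) (hℓ i) (hr i) h'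

theorem lx_ne (hℓ : ∀ i k, ℓ i k ≠ 0) (hx0 : ∀ i, x i 0 ≠ 0)
    (hbas : IsTranscendenceBasis F (aff x)) (i : Fin r) (k : Fin (q i)) :
    lf (ℓ i k) (x i) ≠ 0 := by
  have h1 : AlgebraicIndependent ℂ (aff x) :=
    hbas.1.restrictScalars (algebraMap ℂ F).injective
  refine lf_ne (hx0 i) ?_ (hℓ i k)
  exact h1.comp (fun j : Fin (n i) => (⟨i, j⟩ : (i : Fin r) × Fin (n i))) (fun j j' h => by
    simpa using h)

theorem final_over (hn : ∀ i, 1 ≤ n i) (hℓ : ∀ i k, ℓ i k ≠ 0) (hr : ∀ i, ¬ Reducible (ℓ i))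
    {d : Fin r → ℕ} (hd : ∀ i, d i = n i + 2 ∨ (d i = n i + 1 ∧ ¬ Simplicial (ℓ i)))
    (hm : Algebra.trdeg ℂ F = m) (hx0 : ∀ i, x i 0 ≠ 0)
    (hbas : IsTranscendenceBasis F (aff x))
    (X : Set (Place ℂ K)) (δ : Place ℂ K → ℝ) (hδ : ∀ P ∈ X, 0 ≤ δ P) {s : ℝ} (hs : 1 < s)
    (hP : HorC (n := Fin.cons (α := fun _ => ℕ) m n) F (m + ∑ i, n i) ℓ x X δ d s) :
    ∃ M : ℕ, 0 < M ∧ ∃ ω : Fin ((∑ i, n i) + 1) → (Fin (m + ∑ i, n i) → Derivation ℂ K K) → K,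
      (∀ j, PSec (m + ∑ i, n i) {P | P ∈ X ∧ Dom F P} δ M (ω j)) ∧
      ∃ D, ω 0 D ≠ 0 ∧
        AlgebraicIndependent F (fun i : Fin (∑ i, n i) => ω i.succ D / ω 0 D) := by
  have hN : ∑ i, (Fin.cons (α := fun _ => ℕ) m n : Fin (r + 1) → ℕ) i = m + ∑ i, n i := by
    rw [Fin.sum_univ_succ]
    rfl
  refine big_over (n := Fin.cons (α := fun _ => ℕ) m n) (finSigmaFinEquiv.trans (finCongr hN))
    (finSigmaFinEquiv (n := n)) hm d (fun i => ?_)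
    (fun i => Pool.Agent.W392.CG.span_top (hn i) (ℓ i) (hr i)) (slack_of hn hℓ hr hd)
    (lx_ne hℓ hx0 hbas) hx0 hbas X δ hδ hs hP
  rcases hd i with h' | h' <;> omega

theorem final_kod [Algebra.EssFiniteType ℂ F] (hn : ∀ i, 1 ≤ n i) (hℓ : ∀ i k, ℓ i k ≠ 0)
    (hr : ∀ i, ¬ Reducible (ℓ i))
    {d : Fin r → ℕ} (hd : ∀ i, d i = n i + 2 ∨ (d i = n i + 1 ∧ ¬ Simplicial (ℓ i)))
    (hm : Algebra.trdeg ℂ F = m) (hx0 : ∀ i, x i 0 ≠ 0)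
    (hbas : IsTranscendenceBasis F (aff x))
    (X : Set (Place ℂ K)) (δ : Place ℂ K → ℝ) (hδ : ∀ P ∈ X, 0 ≤ δ P) {s : ℝ} (hs : 1 < s)
    (hP : HorC (n := Fin.cons (α := fun _ => ℕ) m n) F (m + ∑ i, n i) ℓ x X δ d s)
    (δZ : Place ℂ F → ℝ)
    (hV : VerC (n := Fin.cons (α := fun _ => ℕ) m n) (m + ∑ i, n i) ℓ x X δ δZ d s) {h : ℕ}
    (hZ : KodGeP F m Set.univ δZ h) : KodGeP K (m + ∑ i, n i) X δ (h + ∑ i, n i) := by
  have hN : ∑ i, (Fin.cons (α := fun _ => ℕ) m n : Fin (r + 1) → ℕ) i = m + ∑ i, n i := by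
    rw [Fin.sum_univ_succ]
    rfl
  refine kod_add (n := Fin.cons (α := fun _ => ℕ) m n) (finSigmaFinEquiv.trans (finCongr hN))
    (finSigmaFinEquiv (n := n)) hm d (fun i => ?_)
    (fun i => Pool.Agent.W392.CG.span_top (hn i) (ℓ i) (hr i)) (slack_of hn hℓ hr hd)
    (lx_ne hℓ hx0 hbas) hx0 hbas X δ hδ hs hP δZ hV hZ
  rcases hd i with h' | h' <;> omega

theorem ver_zero (hn : ∀ i, 1 ≤ n i) (hr : ∀ i, ¬ Reducible (ℓ i)) {d : Fin r → ℕ}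
    (X : Set (Place ℂ K)) (δ : Place ℂ K → ℝ) (hδ : ∀ P ∈ X, 0 ≤ δ P) {s : ℝ} (hs : 1 < s)
    (N : ℕ) : VerC (n := Fin.cons (α := fun _ => ℕ) m n) N ℓ x X δ
      (fun _ : Place ℂ F => (0 : ℝ)) d s := by
  intro P hPX _ w ε hov a v _
  have B0 : ∀ i, Bases (ℓ i) := fun i =>
    Classical.choice (exists_bases (Pool.Agent.W392.CG.span_top (hn i) (ℓ i) (hr i)))
  refine ⟨fun i => (B0 i).1 0, ?_⟩
  have h1 : (1 : ℝ) ≤ ε := by exact_mod_cast hov.1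
  have h2 : 0 ≤ ∑ i, (v i ((B0 i).1 0) : ℝ) / d i := by positivity
  have h3 := hδ P hPX
  nlinarith

end Pool.Agent.TH210.MP
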