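import Pool.Agent.TH756.PR.Fin
import Pool.Agent.TH143.GT.Pull

/-!
Varieties with a generically finite map to the product of a variety `Z` (function field `F`) and
projective spaces: change of the coordinates on `Z` (helper210).
-/

set_option autoImplicit false

open FF Module Pool.Agent.W603.LV Pool.Agent.W602.GT Pool.Agent.W602.Cov Pool.Agent.W602.Cov.G
open Pool.Agent.W168.CG.PGR Pool.Agent.TH152.AC Pool.Agent.TH756.AR Pool.Agent.TH756.PR
open Pool.Agent.TH143.GT

namespace Pool.Agent.TH210.MP

section blocks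

variable {r N : ℕ} {n : Fin r → ℕ} {K : Type} [Field K] [Algebra ℂ K]
  (e : ((i : Fin r) × Fin (n i)) ≃ Fin N)

theorem det_blocks {x x' : ∀ i, Fin (n i + 1) → K} (hbas : IsTranscendenceBasis ℂ (uu e x))
    {D0 : Fin N → Derivation ℂ K K} (hD0 : (Matrix.of fun a b => D0 a (uu e x b)) = 1)
    (hzero : ∀ a b : (i : Fin r) × Fin (n i), a.1 ≠ b.1 → D0 (e a) (aff x' b) = 0)
    (D : Fin N → Derivation ℂ K K) :
    (Matrix.of fun a b : Fin N => D a (uu e x' b)).det =
      (Matrix.of fun a b : Fin N => D a (uu e x b)).det *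
      ∏ i, (Matrix.of fun k l : Fin (n i) => D0 (e ⟨i, k⟩) (aff x' ⟨i, l⟩)).det := by
  have h2 : (Matrix.of fun a b : Fin N => D a (uu e x' b)).det =
      (Matrix.of fun a b : Fin N => D a (uu e x b)).det *
      (Matrix.of fun a b : Fin N => D0 a (uu e x' b)).det := by
    rw [← Matrix.det_mul]
    congr 1
    ext a b
    rw [Matrix.of_apply, Matrix.mul_apply]
    exact der_expand hbas hD0 (D a) _
  rw [h2]
  congr 1
  rw [← Matrix.det_submatrix_equiv_self e]
  have hM : (Matrix.of fun a b : Fin N => D0 a (uu e x' b)).submatrix e e =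
      Matrix.of fun a b : (i : Fin r) × Fin (n i) => D0 (e a) (aff x' b) := by
    ext a b
    simp only [Matrix.submatrix_apply, Matrix.of_apply]
    unfold uu
    rw [Equiv.symm_apply_apply]
  rw [hM]
  rw [Matrix.BlockTriangular.det_fintype (b := Sigma.fst) (fun a b hab => by
    rw [Matrix.of_apply]
    exact hzero a b (ne_of_gt hab))]
  refine Finset.prod_congr rfl fun i _ => ?_
  let ε : Fin (n i) ≃ {a : (i : Fin r) × Fin (n i) // a.1 = i} :=
    { toFun := fun k => ⟨⟨i, k⟩, rfl⟩
      invFun := fun a => Fin.cast (congrArg n a.2) a.1.2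
      left_inv := fun k => rfl
      right_inv := fun a => by
        rcases a with ⟨⟨i', k⟩, h⟩
        have h' : i' = i := h
        subst h'
        rfl }
  rw [← Matrix.det_submatrix_equiv_self ε]
  congr 1

end blocks

variable {r N : ℕ} {n : Fin (r + 1) → ℕ} {F K : Type} [Field F] [Field K] [Algebra ℂ F]
  [Algebra ℂ K] [Algebra F K] [IsScalarTower ℂ F K]
  (e : ((i : Fin (r + 1)) × Fin (n i)) ≃ Fin N)

/-- the coordinates: the affine coordinates `y` on `Z`, and the homogeneous coordinates on the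
projective spaces -/
noncomputable def co (y : Fin (n 0) → F) (x : ∀ i : Fin r, Fin (n i.succ + 1) → K) :
    ∀ i : Fin (r + 1), Fin (n i + 1) → K :=
  Fin.cons (α := fun i : Fin (r + 1) => Fin (n i + 1) → K)
    (Fin.cons 1 fun b => algebraMap F K (y b)) x

variable {y y' : Fin (n 0) → F} {x : ∀ i : Fin r, Fin (n i.succ + 1) → K}

theorem co_zero_zero : (co y x) 0 0 = 1 := rfl

theorem co_zero_succ (b : Fin (n 0)) : (co y x) 0 b.succ = algebraMap F K (y b) := rfl

theorem co_succ (i : Fin r) : (co y x) i.succ = x i := rfl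

theorem aff_zero (b : Fin (n 0)) : aff (co y x) ⟨0, b⟩ = algebraMap F K (y b) := by
  change (co y x) 0 b.succ / (co y x) 0 0 = _
  rw [co_zero_zero, co_zero_succ, div_one]

theorem aff_succ (i : Fin r) (b : Fin (n i.succ)) :
    aff (co y x) ⟨i.succ, b⟩ = x i b.succ / x i 0 := rfl

/-- **Change of the coordinates on `Z`.** -/
theorem om_frame {E' : Fin (n 0) → Derivation ℂ F F} (h' : Dual y' E')
    (hbas : IsTranscendenceBasis ℂ (uu e (co y' x))) (D : Fin N → Derivation ℂ K K) :
    om e D (co y x) = algebraMap F K (Matrix.of fun c b => E' c (y b)).det *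
      om e D (co y' x) := by
  obtain ⟨D0, hD0⟩ := exists_dual (k := ℂ) hbas
  have hd : ∀ a b, D0 a (uu e (co y' x) b) = if a = b then 1 else 0 := by
    intro a b
    have := congrFun (congrFun hD0 a) b
    rw [Matrix.of_apply, Matrix.one_apply] at this
    exact this
  have hd' : ∀ (a b : (i : Fin (r + 1)) × Fin (n i)),
      D0 (e a) (aff (co y' x) b) = if a = b then 1 else 0 := by
    intro a b
    have h1 := hd (e a) (e b)
    unfold uu at h1
    rw [Equiv.symm_apply_apply] at h1
    rw [h1]
    simp only [EmbeddingLike.apply_eq_iff_eq]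
  have hchain : ∀ (a : (i : Fin (r + 1)) × Fin (n i)) (f : F),
      D0 (e a) (algebraMap F K f) = ∑ j, (if a = ⟨0, j⟩ then 1 else 0) *
        algebraMap F K (E' j f) := by
    intro a f
    rw [h'.chain (D0 (e a)) f]
    refine Finset.sum_congr rfl fun j _ => ?_
    have h1 := hd' a ⟨0, j⟩
    rw [aff_zero] at h1
    rw [h1]
  have hzero : ∀ a b : (i : Fin (r + 1)) × Fin (n i), a.1 ≠ b.1 →
      D0 (e a) (aff (co y x) b) = 0 := by
    rintro a ⟨i, l⟩ hab
    revert l hab
    refine Fin.cases (fun l hab => ?_) (fun i l hab => ?_) i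
    · rw [aff_zero, hchain]
      refine Finset.sum_eq_zero fun j _ => ?_
      rw [if_neg, zero_mul]
      rintro rfl
      exact hab rfl
    · have h1 := hd' a ⟨i.succ, l⟩
      rw [aff_succ] at h1 ⊢
      rw [h1, if_neg]
      rintro rfl
      exact hab rfl
  have h3 := det_blocks e hbas hD0 hzero D
  have h4 : ∏ i, (Matrix.of fun k l : Fin (n i) => D0 (e ⟨i, k⟩) (aff (co y x) ⟨i, l⟩)).det =
      algebraMap F K (Matrix.of fun c b => E' c (y b)).det := by
    rw [Fin.prod_univ_succ]
    have h5 : ∀ i : Fin r, (Matrix.of fun k l : Fin (n i.succ) =>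
        D0 (e ⟨i.succ, k⟩) (aff (co y x) ⟨i.succ, l⟩)) = 1 := by
      intro i
      ext k l
      rw [Matrix.of_apply, Matrix.one_apply]
      have h1 := hd' ⟨i.succ, k⟩ ⟨i.succ, l⟩
      rw [aff_succ] at h1 ⊢
      rw [h1]
      simp
    rw [Finset.prod_congr rfl fun i _ => congrArg Matrix.det (h5 i)]
    simp only [Matrix.det_one, Finset.prod_const_one, mul_one]
    rw [RingHom.map_det]
    congr 1
    ext k l
    rw [Matrix.of_apply, aff_zero, hchain, Finset.sum_eq_single k]
    · simp
    · intro j _ hj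
      rw [if_neg, zero_mul]
      intro h
      have h6 := congrArg (fun a : (i : Fin (r + 1)) × Fin (n i) => (a.2 : ℕ)) h
      exact hj (Fin.ext h6.symm)
    · intro h
      exact absurd (Finset.mem_univ k) h
  unfold om
  rw [h3, h4]
  have h5 : ∏ i, (co y x) i 0 ^ (n i + 1) = ∏ i, (co y' x) i 0 ^ (n i + 1) := by
    rw [Fin.prod_univ_succ, Fin.prod_univ_succ]
    rfl
  rw [h5]
  ring

end Pool.Agent.TH210.MP
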