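import Pool.Agent.TH210.MP.Sec

/-!
Pairs on varieties with a generically finite map to the product of a pair `(Z, Δ_Z)` and projective
spaces with arrangements (helper210).
-/

set_option autoImplicit false

open FF Module Pool.Agent.W603.LV Pool.Agent.W602.GT Pool.Agent.W602.Cov Pool.Agent.W602.Cov.G
open Pool.Agent.W168.CG.PGR Pool.Agent.TH152.AC Pool.Agent.TH756.AR Pool.Agent.TH756.PR
open Pool.Agent.TH143.GT

namespace Pool.Agent.TH210.MP

/-- `ω` is a section of `M (K_X + Δ)`; `X` is the set of the prime divisors of the model, `δ P` is the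
coefficient of `Δ` at `P`. -/
def PSec {k K : Type} [Field k] [Field K] [Algebra k K] (N : ℕ) (X : Set (Place k K))
    (δ : Place k K → ℝ) (M : ℕ) (ω : (Fin N → Derivation k K K) → K) : Prop :=
  IsPluri M ω ∧ ∀ P ∈ X, Divisorial N P → ∀ D : Fin N → Derivation k K K,
    (∀ i, DerReg P (D i)) → RGe P (-(M * δ P)) (ω D)

/-- the Kodaira dimension of `K_X + Δ` is at least `h` -/
def KodGeP (K : Type) [Field K] [Algebra ℂ K] (N : ℕ) (X : Set (Place ℂ K))
    (δ : Place ℂ K → ℝ) (h : ℕ) : Prop :=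
  ∃ M : ℕ, 0 < M ∧ ∃ ω : Fin (h + 1) → (Fin N → Derivation ℂ K K) → K,
    (∀ j, PSec N X δ M (ω j)) ∧
    ∃ D, ω 0 D ≠ 0 ∧ AlgebraicIndependent ℂ (fun i : Fin h => ω i.succ D / ω 0 D)

variable {r N N2 : ℕ} {n : Fin (r + 1) → ℕ} {F K : Type} [Field F] [Field K] [Algebra ℂ F]
  [Algebra ℂ K] [Algebra F K] [IsScalarTower ℂ F K]
  (e : ((i : Fin (r + 1)) × Fin (n i)) ≃ Fin N)
  (e2 : ((i : Fin r) × Fin (n i.succ)) ≃ Fin N2) {q : Fin r → ℕ}
  {ℓ : ∀ i : Fin r, Fin (q i) → Form (n i.succ)} {x : ∀ i : Fin r, Fin (n i.succ + 1) → K}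

/-- the prime divisor dominates `Z` -/
def Dom (F : Type) [Field F] [Algebra F K] (P : Place ℂ K) : Prop :=
  ∀ g : F, P.ord (algebraMap F K g) = 0

/-- the condition at the prime divisors which dominate `Z` -/
def HorC (F : Type) [Field F] [Algebra F K] (N : ℕ)
    (ℓ : ∀ i : Fin r, Fin (q i) → Form (n i.succ)) (x : ∀ i : Fin r, Fin (n i.succ + 1) → K)
    (X : Set (Place ℂ K)) (δ : Place ℂ K → ℝ) (d : Fin r → ℕ) (s : ℝ) : Prop :=
  ∀ P ∈ X, Divisorial N P → Dom F P → ∀ a v, Nrm (n := fun i : Fin r => n i.succ) ℓ x P a v →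
    (∃ i, v i ≠ 0) → ∃ k : ∀ i, Fin (q i), s * (1 - δ P) ≤ ∑ i, (v i (k i) : ℝ) / d i

/-- the condition at the prime divisors which do not dominate `Z` -/
def VerC (N : ℕ) (ℓ : ∀ i : Fin r, Fin (q i) → Form (n i.succ))
    (x : ∀ i : Fin r, Fin (n i.succ + 1) → K)
    (X : Set (Place ℂ K)) (δ : Place ℂ K → ℝ) (δZ : Place ℂ F → ℝ) (d : Fin r → ℕ) (s : ℝ) :
    Prop :=
  ∀ P ∈ X, Divisorial N P → ∀ (w : Place ℂ F) (ε : ℕ), Over P w ε →
    ∀ a v, Nrm (n := fun i : Fin r => n i.succ) ℓ x P a v →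
      ∃ k : ∀ i, Fin (q i), s * (1 - δ P) ≤ s * (ε * (1 - δZ w)) + ∑ i, (v i (k i) : ℝ) / d i

/-- the choice of the weights -/
theorem weights_exist (p : ∀ i, Bases (ℓ i) → ℕ) (hp0 : ∀ i, 0 < ∑ B, p i B) (d : Fin r → ℕ)
    (hd : ∀ i, 1 ≤ d i) {s : ℝ} (hs : 1 < s) (M : ℕ) (hM : 0 < M) :
    ∃ (t : Fin r → ℕ) (T T2 : ℕ), 0 < T2 ∧ T = M * T2 ∧ (∀ i, t i * ∑ B, p i B = T) ∧
      ∀ i, (d i : ℝ) ≤ T * (1 - 1 / s) := by
  have hs0 : 0 < s := by linarith
  have h1s : 0 < 1 - 1 / s := by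
    have : 1 / s < 1 := by
      rw [div_lt_one hs0]
      exact hs
    linarith
  obtain ⟨T1, hT1⟩ := exists_nat_gt (((∏ i, d i : ℕ) : ℝ) / (1 - 1 / s))
  have hT1M : ((∏ i, d i : ℕ) : ℝ) < T1 * (1 - 1 / s) := by
    rwa [div_lt_iff₀ h1s] at hT1
  have hT1pos : 0 < T1 := by
    rcases Nat.eq_zero_or_pos T1 with h | h
    · rw [h, Nat.cast_zero, zero_mul] at hT1M
      have : (0 : ℝ) ≤ ((∏ i, d i : ℕ) : ℝ) := Nat.cast_nonneg _
      linarith
    · exact h
  have hS : 0 < ∏ i, ∑ B, p i B := Finset.prod_pos fun i _ => hp0 i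
  obtain ⟨t, T, hTeq, hT⟩ := exists_weights (M * T1) p
  refine ⟨t, T, T1 * ∏ i, ∑ B, p i B, Nat.mul_pos hT1pos hS, by rw [hTeq, mul_assoc], hT,
    fun i => ?_⟩
  have h2 : T1 ≤ T := by
    rw [hTeq, mul_assoc]
    exact le_trans (Nat.le_mul_of_pos_right _ hS) (Nat.le_mul_of_pos_left _ hM)
  have h3 : (T1 : ℝ) ≤ T := by exact_mod_cast h2
  have h4 := mul_le_mul_of_nonneg_right h3 h1s.le
  have h5 : d i ≤ ∏ i, d i :=
    Nat.le_of_dvd (Finset.prod_pos fun i _ => hd i) (Finset.dvd_prod_of_mem d (Finset.mem_univ i))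
  have h6 : (d i : ℝ) ≤ ((∏ i, d i : ℕ) : ℝ) := by exact_mod_cast h5
  linarith

theorem fac_ne {k0 : ∀ i, Fin (q i)} (hx0 : ∀ i, x i 0 ≠ 0)
    (hlx : ∀ (i : Fin r) k, lf (ℓ i k) (x i) ≠ 0) :
    fac ℓ x k0 (pick (n := fun i : Fin r => n i.succ) e2 0) ≠ 0 :=
  Finset.prod_ne_zero_iff.2 fun i _ => div_ne_zero (hx0 i) (hlx i _)

theorem exists_basis_dual {m : ℕ} (hm : Algebra.trdeg ℂ F = m) :
    ∃ (y : Fin m → F) (E : Fin m → Derivation ℂ F F), Dual y E := by
  classical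
  obtain ⟨y0, hy0⟩ : ∃ y0 : Fin m → F, IsTranscendenceBasis ℂ y0 := by
    obtain ⟨B, hB⟩ := exists_isTranscendenceBasis ℂ F
    have hcard := hB.cardinalMk_eq_trdeg
    rw [hm] at hcard
    have hfin : Finite B := by
      rw [← Cardinal.lt_aleph0_iff_finite, hcard]
      exact Cardinal.natCast_lt_aleph0
    obtain ⟨m', ⟨e⟩⟩ := Finite.exists_equiv_fin B
    obtain rfl : m' = m := by
      rw [Cardinal.mk_congr e, Cardinal.mk_fin] at hcard
      exact_mod_cast hcard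
    exact ⟨fun i => (e.symm i : F), hB.comp_equiv e.symm⟩
  obtain ⟨E, hE⟩ := exists_dual (k := ℂ) hy0
  refine ⟨y0, E, hy0, fun i j => ?_⟩
  have := congrFun (congrFun hE i) j
  rw [Matrix.of_apply, Matrix.one_apply] at this
  exact this

theorem fac_ratio {k0 : ∀ i, Fin (q i)} (hx0 : ∀ i, x i 0 ≠ 0)
    (hlx : ∀ (i : Fin r) k, lf (ℓ i k) (x i) ≠ 0) (b : Fin N2) :
    fac ℓ x k0 (pick (n := fun i : Fin r => n i.succ) e2 b.succ) /
      fac ℓ x k0 (pick (n := fun i : Fin r => n i.succ) e2 0) =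
      uu (n := fun i : Fin r => n i.succ) e2 x b :=
  pick_ratio (n := fun i : Fin r => n i.succ) e2 hx0
    (L := fun i => lf (ℓ i (k0 i)) (x i)) (fun i => hlx i _) b

include e e2 in
/-- **Bigness over `Z`.** -/
theorem big_over (hm : Algebra.trdeg ℂ F = n 0) (d : Fin r → ℕ) (hd : ∀ i, 1 ≤ d i)
    (hspan : ∀ i, Submodule.span ℂ (Set.range (ℓ i)) = ⊤) (hsl : ∀ i, Slack (ℓ i) (d i))
    (hlx : ∀ (i : Fin r) k, lf (ℓ i k) (x i) ≠ 0) (hx0 : ∀ i, x i 0 ≠ 0)
    (hbas : IsTranscendenceBasis F (aff (n := fun i : Fin r => n i.succ) x))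
    (X : Set (Place ℂ K)) (δ : Place ℂ K → ℝ) (hδ : ∀ P ∈ X, 0 ≤ δ P) {s : ℝ} (hs : 1 < s)
    (hP : HorC F N ℓ x X δ d s) :
    ∃ M : ℕ, 0 < M ∧ ∃ ω : Fin (N2 + 1) → (Fin N → Derivation ℂ K K) → K,
      (∀ j, PSec N {P | P ∈ X ∧ Dom F P} δ M (ω j)) ∧
      ∃ D, ω 0 D ≠ 0 ∧ AlgebraicIndependent F (fun i : Fin N2 => ω i.succ D / ω 0 D) := by
  choose p hp0 hp using hsl
  have B0 : ∀ i, Bases (ℓ i) := fun i => Classical.choice (exists_bases (hspan i))
  have k0 : ∀ i, Fin (q i) := fun i => (B0 i).1 0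
  obtain ⟨t, T, T2, hT2, hTM, hT, hdT⟩ := weights_exist p hp0 d hd hs 1 one_pos
  have hTpos : 0 < T := by
    rw [hTM, one_mul]
    exact hT2
  obtain ⟨y, E, hyE⟩ := exists_basis_dual hm
  have hbc := basis_co e hyE.1 hbas
  obtain ⟨D, hD⟩ := exists_om_ne e (co_ne_zero hx0) hbc
  have hpp : ppm e ℓ (co y x) p t T D ≠ 0 := by
    unfold ppm
    exact div_ne_zero (pow_ne_zero _ hD) (densm_ne (x := co y x) hlx p t)
  refine ⟨T, hTpos, fun b D => ppm e ℓ (co y x) p t T D *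
    fac ℓ x k0 (pick (n := fun i : Fin r => n i.succ) e2 b), fun b => ⟨?_, ?_⟩, D, ?_, ?_⟩
  · intro A D'
    change ppm e ℓ (co y x) p t T _ * _ = _
    rw [ppm_pluri e (co y x) p t T A D']
    ring
  · rintro P ⟨hPX, hdom⟩ hPd D hD
    exact sec_hor e d hd p hp hspan t T hT hlx hx0 hyE.1 hbas k0 _ hs hdT P (hδ P hPX) hdom
      (fun a v hn hv => by
        obtain ⟨k, hk⟩ := hP P hPX hPd hdom a v hn hv
        exact ⟨k, by linarith⟩) D hD
  · exact mul_ne_zero hpp (fac_ne e2 hx0 hlx)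
  · have e1 : (fun b : Fin N2 => (ppm e ℓ (co y x) p t T D *
        fac ℓ x k0 (pick (n := fun i : Fin r => n i.succ) e2 b.succ)) /
        (ppm e ℓ (co y x) p t T D * fac ℓ x k0 (pick (n := fun i : Fin r => n i.succ) e2 0))) =
        uu (n := fun i : Fin r => n i.succ) e2 x := by
      funext b
      rw [mul_div_mul_left _ _ hpp, fac_ratio e2 hx0 hlx]
    change AlgebraicIndependent F (fun b : Fin N2 => (ppm e ℓ (co y x) p t T D *
        fac ℓ x k0 (pick (n := fun i : Fin r => n i.succ) e2 b.succ)) /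
        (ppm e ℓ (co y x) p t T D * fac ℓ x k0 (pick (n := fun i : Fin r => n i.succ) e2 0)))
    rw [e1]
    exact hbas.1.comp e2.symm e2.symm.injective

/-- the number of the form on `Z`, and the number of the coordinates -/
def idx (h N2 : ℕ) : Fin (h + N2 + 1) → Fin (h + 1) × Fin (N2 + 1) :=
  Fin.cases (0, 0) (Fin.addCases (fun j => (j.succ, 0)) (fun c => (0, c.succ)))

theorem indep_append {h : ℕ} {ρ : Fin h → F} {u : Fin N2 → K} (hρ : AlgebraicIndependent ℂ ρ)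
    (hu : AlgebraicIndependent F u) :
    AlgebraicIndependent ℂ (fun i : Fin (h + N2) =>
      (Fin.addCases (fun j => algebraMap F K (ρ j)) u i : K)) := by
  have h1 := hρ.sumElim_comp hu
  have h2 : (fun i : Fin (h + N2) => (Fin.addCases (fun j => algebraMap F K (ρ j)) u i : K)) =
      (Sum.elim u (algebraMap F K ∘ ρ)) ∘ (fun i : Fin (h + N2) =>
        (Fin.addCases (fun j => Sum.inr j) (fun c => Sum.inl c) i : Fin N2 ⊕ Fin h)) := by
    funext i
    refine Fin.addCases (fun j => ?_) (fun c => ?_) i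
    · simp
    · simp
  rw [h2]
  refine h1.comp _ ?_
  intro i j
  refine Fin.addCases (fun i => ?_) (fun i => ?_) i <;>
    refine Fin.addCases (fun j => ?_) (fun j => ?_) j <;> simp

include e e2 in
/-- **The Kodaira dimension.** -/
theorem kod_add [Algebra.EssFiniteType ℂ F] (hm : Algebra.trdeg ℂ F = n 0) (d : Fin r → ℕ)
    (hd : ∀ i, 1 ≤ d i)
    (hspan : ∀ i, Submodule.span ℂ (Set.range (ℓ i)) = ⊤) (hsl : ∀ i, Slack (ℓ i) (d i))
    (hlx : ∀ (i : Fin r) k, lf (ℓ i k) (x i) ≠ 0) (hx0 : ∀ i, x i 0 ≠ 0)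
    (hbas : IsTranscendenceBasis F (aff (n := fun i : Fin r => n i.succ) x))
    (X : Set (Place ℂ K)) (δ : Place ℂ K → ℝ) (hδ : ∀ P ∈ X, 0 ≤ δ P) {s : ℝ} (hs : 1 < s)
    (hP : HorC F N ℓ x X δ d s) (δZ : Place ℂ F → ℝ) (hV : VerC N ℓ x X δ δZ d s) {h : ℕ}
    (hZ : KodGeP F (n 0) Set.univ δZ h) : KodGeP K N X δ (h + N2) := by
  choose p hp0 hp using hsl
  have B0 : ∀ i, Bases (ℓ i) := fun i => Classical.choice (exists_bases (hspan i))
  have k0 : ∀ i, Fin (q i) := fun i => (B0 i).1 0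
  obtain ⟨MZ, hMZ, η, hη, E0, hη0, hind⟩ := hZ
  obtain ⟨t, T, T2, hT2, hTM, hT, hdT⟩ := weights_exist p hp0 d hd hs MZ hMZ
  have hTpos : 0 < T := by
    rw [hTM]
    exact Nat.mul_pos hMZ hT2
  obtain ⟨y, E, hyE⟩ := exists_basis_dual hm
  have hbc := basis_co e hyE.1 hbas
  have hN : Algebra.trdeg ℂ K = N := trdeg_of_basis hbc
  obtain ⟨D, hD⟩ := exists_om_ne e (co_ne_zero hx0) hbc
  have hpp : ppm e ℓ (co y x) p t T D ≠ 0 := by
    unfold ppm
    exact div_ne_zero (pow_ne_zero _ hD) (densm_ne (x := co y x) hlx p t)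
  obtain ⟨T3, rfl⟩ : ∃ T3, T2 = T3 + 1 := ⟨T2 - 1, by omega⟩
  -- the forms of `Z`
  obtain ⟨θ, hθdef⟩ : ∃ θ : Fin (h + 1) → (Fin (n 0) → Derivation ℂ F F) → F,
    θ = fun j E' => η 0 E' ^ T3 * η j E' := ⟨_, rfl⟩
  have hθ : ∀ j, IsPluri T (θ j) := by
    intro j A E'
    rw [hθdef]
    change η 0 _ ^ T3 * η j _ = A.det ^ T * (η 0 E' ^ T3 * η j E')
    rw [(hη 0).1 A E', (hη j).1 A E', hTM]
    ring
  have hθw : ∀ j (w : Place ℂ F), Divisorial (n 0) w → ∀ E' : Fin (n 0) → Derivation ℂ F F,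
      (∀ i, DerReg w (E' i)) → RGe w (-(T * δZ w)) (θ j E') := by
    intro j w hw E' hE'
    rw [hθdef]
    have h1 := (hη 0).2 w (Set.mem_univ _) hw E' hE'
    have h2 := (hη j).2 w (Set.mem_univ _) hw E' hE'
    refine ((h1.pow T3).mul h2).mono (le_of_eq ?_)
    rw [hTM]
    push_cast
    ring
  -- the values at the dual basis
  obtain ⟨c, hc⟩ : ∃ c : F, c = (Matrix.of fun i l => E0 i (y l)).det ^ MZ := ⟨_, rfl⟩
  have hηE : ∀ j, η j E0 = c * η j E := by
    intro j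
    have h1 : E0 = fun i => ∑ l, (Matrix.of fun i l => E0 i (y l)) i l • E l := by
      funext i
      exact hyE.expand (E0 i)
    rw [hc, ← (hη j).1, ← h1]
  have hc0 : c ≠ 0 := by
    intro h0
    apply hη0
    rw [hηE, h0, zero_mul]
  have hη1 : η 0 E ≠ 0 := by
    intro h0
    apply hη0
    rw [hηE, h0, mul_zero]
  have hθ1 : θ 0 E ≠ 0 := by
    rw [hθdef]
    exact mul_ne_zero (pow_ne_zero _ hη1) hη1
  have hρ : AlgebraicIndependent ℂ (fun i : Fin h => θ i.succ E / θ 0 E) := by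
    have h1 : (fun i : Fin h => θ i.succ E / θ 0 E) =
        fun i : Fin h => η i.succ E0 / η 0 E0 := by
      funext i
      rw [hθdef, hηE, hηE, mul_div_mul_left _ _ hc0, mul_div_mul_left _ _ (pow_ne_zero _ hη1)]
    rw [h1]
    exact hind
  have hθK : algebraMap F K (θ 0 E) ≠ 0 := by simpa using hθ1
  have hfac := fac_ne (k0 := k0) e2 hx0 hlx
  refine ⟨T, hTpos, fun b D => algebraMap F K (θ (idx h N2 b).1 E) * (ppm e ℓ (co y x) p t T D *
    fac ℓ x k0 (pick (n := fun i : Fin r => n i.succ) e2 (idx h N2 b).2)),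
    fun b => ⟨?_, ?_⟩, D, ?_, ?_⟩
  · intro A D'
    change _ * (ppm e ℓ (co y x) p t T _ * _) = _
    rw [ppm_pluri e (co y x) p t T A D']
    ring
  · intro P hPX hPd D hD
    by_cases hdom : Dom F P
    · have h1 := sec_hor e d hd p hp hspan t T hT hlx hx0 hyE.1 hbas k0
        (pick (n := fun i : Fin r => n i.succ) e2 (idx h N2 b).2) hs hdT P (hδ P hPX) hdom
        (fun a v hn hv => by
          obtain ⟨k, hk⟩ := hP P hPX hPd hdom a v hn hv
          exact ⟨k, by linarith⟩) D hD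
      have h2 : RGe P 0 (algebraMap F K (θ (idx h N2 b).1 E)) := Or.inr (by
        rw [hdom]
        simp)
      exact (h2.mul h1).mono (by linarith)
    · unfold Dom at hdom
      push Not at hdom
      obtain ⟨ε, w, hov⟩ := exists_over (K := F) P hdom
      exact sec_ver e hm hN d hd p hp hspan t T hT hlx hx0 hyE hbas k0 _ hs hdT P hPd w ε hov
        (fun a v hn => hV P hPX hPd w ε hov a v hn) (hθ _)
        (hθw _ w (Pool.Agent.W419.PG.main ℂ F K (n 0) N w P ε hm hN hov hPd)) D hD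
  · exact mul_ne_zero hθK (mul_ne_zero hpp hfac)
  · have e1 : (fun i : Fin (h + N2) => (algebraMap F K (θ (idx h N2 i.succ).1 E) *
        (ppm e ℓ (co y x) p t T D *
          fac ℓ x k0 (pick (n := fun i : Fin r => n i.succ) e2 (idx h N2 i.succ).2))) /
        (algebraMap F K (θ 0 E) * (ppm e ℓ (co y x) p t T D *
          fac ℓ x k0 (pick (n := fun i : Fin r => n i.succ) e2 0)))) =
        fun i : Fin (h + N2) => (Fin.addCases (fun j => algebraMap F K (θ j.succ E / θ 0 E))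
          (uu (n := fun i : Fin r => n i.succ) e2 x) i : K) := by
      funext i
      refine Fin.addCases (fun j => ?_) (fun b => ?_) i
      · have h1 : idx h N2 (Fin.castAdd N2 j).succ = (j.succ, 0) := by
          unfold idx
          simp
        rw [h1, Fin.addCases_left, mul_div_mul_right _ _ (mul_ne_zero hpp hfac), map_div₀]
      · have h1 : idx h N2 (Fin.natAdd h b).succ = (0, b.succ) := by
          unfold idx
          simp
        rw [h1, Fin.addCases_right, mul_div_mul_left _ _ hθK, mul_div_mul_left _ _ hpp,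
          fac_ratio e2 hx0 hlx]
    change AlgebraicIndependent ℂ (fun i : Fin (h + N2) =>
      (algebraMap F K (θ (idx h N2 i.succ).1 E) * (ppm e ℓ (co y x) p t T D *
          fac ℓ x k0 (pick (n := fun i : Fin r => n i.succ) e2 (idx h N2 i.succ).2))) /
        (algebraMap F K (θ 0 E) * (ppm e ℓ (co y x) p t T D *
          fac ℓ x k0 (pick (n := fun i : Fin r => n i.succ) e2 0))))
    rw [e1]
    exact indep_append hρ (hbas.1.comp e2.symm e2.symm.injective)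

end Pool.Agent.TH210.MP
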