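import Pool.Agent.TH210.MP.Fin

/-!
Nonvanishing: the inequalities at the prime divisors need not be strict (helper210).
-/

set_option autoImplicit false

open FF Module Pool.Agent.W603.LV Pool.Agent.W602.GT Pool.Agent.W602.Cov Pool.Agent.W602.Cov.G
open Pool.Agent.W168.CG.PGR Pool.Agent.TH152.AC Pool.Agent.TH756.AR Pool.Agent.TH756.PR
open Pool.Agent.TH143.GT

namespace Pool.Agent.TH210.MP

section sec

variable {r N : ℕ} {n : Fin (r + 1) → ℕ} {F K : Type} [Field F] [Field K] [Algebra ℂ F]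
  [Algebra ℂ K] [Algebra F K] [IsScalarTower ℂ F K]
  (e : ((i : Fin (r + 1)) × Fin (n i)) ≃ Fin N) {q : Fin r → ℕ}
  {ℓ : ∀ i : Fin r, Fin (q i) → Form (n i.succ)}
  {y : Fin (n 0) → F} {x : ∀ i : Fin r, Fin (n i.succ + 1) → K}

/-- **The prime divisors which dominate `Z`.** -/
theorem non_hor (d : Fin r → ℕ) (hd : ∀ i, 1 ≤ d i) (p : ∀ i, Bases (ℓ i) → ℕ)
    (hp : ∀ i, ∀ F : Finset (Fin (q i)), Proper (ℓ i) F →
      d i * (∑ B, p i B * cnt B.1 F) + ∑ B, p i B ≤ d i * ((∑ B, p i B) * rk (ℓ i) F))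
    (hspan : ∀ i, Submodule.span ℂ (Set.range (ℓ i)) = ⊤) (t : Fin r → ℕ) (T : ℕ)
    (hT : ∀ i, t i * ∑ B, p i B = T) (hlx : ∀ (i : Fin r) k, lf (ℓ i k) (x i) ≠ 0)
    (hx0 : ∀ i, x i 0 ≠ 0) (hy : IsTranscendenceBasis ℂ y)
    (hbas : IsTranscendenceBasis F (aff (n := fun i : Fin r => n i.succ) x))
    (P : Place ℂ K) {δ : ℝ} (hδ : 0 ≤ δ)
    (hhor : ∀ g : F, P.ord (algebraMap F K g) = 0)
    (hP : ∀ a v, Nrm (n := fun i : Fin r => n i.succ) ℓ x P a v → (∃ i, v i ≠ 0) →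
      Lg d 1 δ 0 v)
    (D : Fin N → Derivation ℂ K K) (hD : ∀ i, DerReg P (D i)) :
    RGe P (-(T * δ)) (ppm e ℓ (co y x) p t T D) := by
  have hbc := basis_co e hy hbas
  have hy0 : ∀ b, algebraMap F K (y b) ≠ 0 := fun b => by
    have h1 : y b ≠ 0 := hy.1.ne_zero b
    simpa using h1
  have hfz : ∀ f : ∀ i, Fin (n i + 1) → K, f 0 = co y x 0 → (∀ j, f 0 j ≠ 0) ∧
      ∀ j, P.ord (f 0 j) = 0 := by
    intro f hf
    rw [hf]
    refine ⟨Fin.cases ?_ fun b => ?_, Fin.cases ?_ fun b => ?_⟩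
    · rw [co_zero_zero]
      exact one_ne_zero
    · rw [co_zero_succ]
      exact hy0 b
    · rw [co_zero_zero, P.ord_one]
    · rw [co_zero_succ]
      exact hhor _
  obtain ⟨a, v, hv, hx, hsp, c, hc, hc2⟩ := ppm_ord e d hd p hp hspan t T hT
    (x := co y x) hlx (co_ne_zero hx0) hbc P D (-1) 0 (fun f hf0 hf => by
      have hall : ∀ i j, f i j ≠ 0 := by
        intro i
        revert i
        exact Fin.cases (hfz f hf0).1 hf
      have h1 := om_ge_reg e P D hD hall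
      rw [Fin.sum_univ_succ, Finset.sum_eq_zero fun j _ => (hfz f hf0).2 j, zero_add] at h1
      exact h1) (fun f a hf0 hf ha => by
      have hall : ∀ i j, f i j ≠ 0 := by
        intro i
        revert i
        exact Fin.cases (hfz f hf0).1 hf
      have h1 := om_ge_unit e P D hD hall (Fin.cons (α := fun _ => ℤ) 0 a) (by
        intro i
        revert i
        exact Fin.cases (hfz f hf0).2 ha)
      rw [Fin.sum_univ_succ] at h1
      simpa using h1)
  refine (RGe.of_ge hc).mono ?_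
  have hT0 : (0 : ℝ) ≤ T := Nat.cast_nonneg _
  rcases hc2 with ⟨hv0, h0⟩ | ⟨hv0, h1⟩
  · have h2 : (0 : ℝ) ≤ c := by
      rw [mul_zero] at h0
      exact_mod_cast h0
    have h3 := mul_nonneg hT0 hδ
    linarith
  · have hn := nrm (n := fun i : Fin r => n i.succ) (x := x) hspan hlx hv hsp
    obtain ⟨k, hk⟩ := hP a v hn hv0
    have h3 := cast_sum' d v k (h1 k)
    push_cast at h3
    have h4 := mul_le_mul_of_nonneg_left hk hT0
    linarith

/-- **The prime divisors which do not dominate `Z`.** -/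
theorem non_ver [Algebra.EssFiniteType ℂ F] (hm : Algebra.trdeg ℂ F = n 0)
    (hN : Algebra.trdeg ℂ K = N) (d : Fin r → ℕ) (hd : ∀ i, 1 ≤ d i)
    (p : ∀ i, Bases (ℓ i) → ℕ)
    (hp : ∀ i, ∀ F : Finset (Fin (q i)), Proper (ℓ i) F →
      d i * (∑ B, p i B * cnt B.1 F) + ∑ B, p i B ≤ d i * ((∑ B, p i B) * rk (ℓ i) F))
    (hspan : ∀ i, Submodule.span ℂ (Set.range (ℓ i)) = ⊤) (t : Fin r → ℕ) (T : ℕ)
    (hT : ∀ i, t i * ∑ B, p i B = T) (hlx : ∀ (i : Fin r) k, lf (ℓ i k) (x i) ≠ 0)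
    (hx0 : ∀ i, x i 0 ≠ 0) {E : Fin (n 0) → Derivation ℂ F F} (hyE : Dual y E)
    (hbas : IsTranscendenceBasis F (aff (n := fun i : Fin r => n i.succ) x))
    (P : Place ℂ K) (hPd : Divisorial N P) {δ : ℝ}
    (w : Place ℂ F) (ε : ℕ) (hov : Over P w ε) {δZ : ℝ}
    (hP : ∀ a v, Nrm (n := fun i : Fin r => n i.succ) ℓ x P a v →
      Lg d 1 δ (ε * (1 - δZ)) v)
    {θ : (Fin (n 0) → Derivation ℂ F F) → F} (hθ : IsPluri T θ)
    (hθw : ∀ E' : Fin (n 0) → Derivation ℂ F F, (∀ i, DerReg w (E' i)) →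
      RGe w (-(T * δZ)) (θ E'))
    (D : Fin N → Derivation ℂ K K) (hD : ∀ i, DerReg P (D i)) :
    RGe P (-(T * δ)) (algebraMap F K (θ E) * ppm e ℓ (co y x) p t T D) := by
  have hw : Divisorial (n 0) w := Pool.Agent.W419.PG.main ℂ F K (n 0) N w P ε hm hN hov hPd
  obtain ⟨y', E', i0, hb', hE', hi0, hy'r, hpres⟩ := Pool.Agent.W240.PG.Frame.main
    Pool.Agent.W762.PG.main ℂ F (n 0) hm (fun y hy => fin_adjoin y hy) w hw
  have h' : Dual y' E' := ⟨hb', hE'⟩
  have hbc := basis_co e hb' hbas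
  have hy0 : ∀ b, algebraMap F K (y' b) ≠ 0 := fun b => by
    have h1 : y' b ≠ 0 := hb'.1.ne_zero b
    simpa using h1
  have hfz : ∀ f : ∀ i, Fin (n i + 1) → K, f 0 = co y' x 0 → (∀ j, f 0 j ≠ 0) ∧
      (ε : ℤ) ≤ ∑ j, P.ord (f 0 j) := by
    intro f hf
    rw [hf]
    constructor
    · refine Fin.cases ?_ fun b => ?_
      · rw [co_zero_zero]
        exact one_ne_zero
      · rw [co_zero_succ]
        exact hy0 b
    · rw [Fin.sum_univ_succ, co_zero_zero, P.ord_one, zero_add]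
      have h1 : ∀ b : Fin (n 0), 0 ≤ P.ord (co y' x 0 b.succ) := by
        intro b
        rw [co_zero_succ]
        rcases hov.reg.2 (hy'r b) with h2 | h2
        · exact absurd h2 (hy0 b)
        · exact h2
      have h2 : P.ord (co y' x 0 i0.succ) = ε := by
        rw [co_zero_succ, hov.2, hi0, mul_one]
      rw [← h2]
      exact Finset.single_le_sum (f := fun b : Fin (n 0) => P.ord (co y' x 0 b.succ))
        (fun b _ => h1 b) (Finset.mem_univ i0)
  have hall : ∀ f : ∀ i, Fin (n i + 1) → K, f 0 = co y' x 0 →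
      (∀ (i : Fin r) j, f i.succ j ≠ 0) → ∀ i j, f i j ≠ 0 := by
    intro f hf0 hf i
    revert i
    exact Fin.cases (hfz f hf0).1 hf
  obtain ⟨a, v, hv, hx, hsp, c, hc, hc2⟩ := ppm_ord e d hd p hp hspan t T hT
    (x := co y' x) hlx (co_ne_zero hx0) hbc P D (ε - 1) (ε - 1) (fun f hf0 hf => by
      have h1 := om_ge_reg e P D hD (hall f hf0 hf)
      rw [Fin.sum_univ_succ] at h1
      refine h1.mono ?_
      have h2 := (hfz f hf0).2
      push_cast
      linarith) (fun f a hf0 hf ha => by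
      have h1 := om_ge_reg e P D hD (hall f hf0 hf)
      rw [Fin.sum_univ_succ] at h1
      refine h1.mono ?_
      have h2 := (hfz f hf0).2
      have h3 : ∀ i : Fin r, ∑ j, P.ord (f i.succ j) = ((n i.succ : ℤ) + 1) * a i := by
        intro i
        rw [Finset.sum_congr rfl fun j _ => ha i j, Finset.sum_const, Finset.card_univ,
          Fintype.card_fin]
        simp
      rw [Finset.sum_congr rfl fun i _ => h3 i]
      push_cast
      linarith)
  -- the form of `Z` in the new coordinates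
  obtain ⟨J, hJ⟩ : ∃ J : F, J = (Matrix.of fun c b => E' c (y b)).det := ⟨_, rfl⟩
  have hθJ : θ E' = J ^ T * θ E := by
    have h1 : E' = fun c => ∑ b, (Matrix.of fun c b => E' c (y b)) c b • E b := by
      funext c
      exact hyE.expand (E' c)
    rw [hJ, ← hθ, ← h1]
  have hpp : algebraMap F K (θ E) * ppm e ℓ (co y x) p t T D =
      algebraMap F K (θ E') * ppm e ℓ (co y' x) p t T D := by
    have h1 : om e D (co y x) = algebraMap F K J * om e D (co y' x) := by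
      rw [hJ]
      exact om_frame e h' hbc D
    unfold ppm
    rw [h1, hθJ, map_mul, map_pow]
    have h2 : ∏ i : Fin r, den (ℓ i) (co y x i.succ) (p i) (t i) =
        ∏ i : Fin r, den (ℓ i) (co y' x i.succ) (p i) (t i) := rfl
    rw [h2, mul_pow]
    ring
  rw [hpp]
  -- the order of the form of `Z`
  have hZ : RGe P (-(T * (ε * δZ))) (algebraMap F K (θ E')) := by
    rcases hθw E' hpres with h1 | h1
    · exact Or.inl (by rw [h1, map_zero])
    · right
      rw [hov.2]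
      push_cast
      have h2 : (0 : ℝ) ≤ ε := Nat.cast_nonneg _
      have h3 := mul_le_mul_of_nonneg_left h1 h2
      linarith
  refine (hZ.mul (RGe.of_ge hc)).mono ?_
  have hT0 : (0 : ℝ) ≤ T := Nat.cast_nonneg _
  have hn := nrm (n := fun i : Fin r => n i.succ) (x := x) hspan hlx hv hsp
  have hE : ∀ k : ∀ i, Fin (q i), (T : ℝ) * ∑ i, (v i (k i) : ℝ) / d i + T * (ε - 1) ≤ c := by
    intro k
    rcases hc2 with ⟨hv0, h0⟩ | ⟨-, h1⟩
    · have h2 : ((T * (ε - 1) : ℤ) : ℝ) ≤ c := by exact_mod_cast h0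
      push_cast at h2
      have h3 : ∑ i, (v i (k i) : ℝ) / d i = 0 :=
        Finset.sum_eq_zero fun i _ => by rw [hv0 i]; simp
      rw [h3]
      linarith
    · have h3 := cast_sum' d v k (h1 k)
      push_cast at h3
      exact h3
  obtain ⟨k, hk⟩ := hP a v hn
  have h3 := hE k
  have h4 := mul_le_mul_of_nonneg_left hk hT0
  linarith

end sec

section main

variable {r N : ℕ} {n : Fin (r + 1) → ℕ} {F K : Type} [Field F] [Field K] [Algebra ℂ F]
  [Algebra ℂ K] [Algebra F K] [IsScalarTower ℂ F K]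
  (e : ((i : Fin (r + 1)) × Fin (n i)) ≃ Fin N) {q : Fin r → ℕ}
  {ℓ : ∀ i : Fin r, Fin (q i) → Form (n i.succ)} {x : ∀ i : Fin r, Fin (n i.succ + 1) → K}

include e in
/-- **Nonvanishing.** -/
theorem non_main [Algebra.EssFiniteType ℂ F] (hm : Algebra.trdeg ℂ F = n 0) (d : Fin r → ℕ)
    (hd : ∀ i, 1 ≤ d i)
    (hspan : ∀ i, Submodule.span ℂ (Set.range (ℓ i)) = ⊤) (hsl : ∀ i, Slack (ℓ i) (d i))
    (hlx : ∀ (i : Fin r) k, lf (ℓ i k) (x i) ≠ 0) (hx0 : ∀ i, x i 0 ≠ 0)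
    (hbas : IsTranscendenceBasis F (aff (n := fun i : Fin r => n i.succ) x))
    (X : Set (Place ℂ K)) (δ : Place ℂ K → ℝ) (hδ : ∀ P ∈ X, 0 ≤ δ P)
    (hP : HorC F N ℓ x X δ d 1) (δZ : Place ℂ F → ℝ) (hV : VerC N ℓ x X δ δZ d 1) {h : ℕ}
    (hZ : KodGeP F (n 0) Set.univ δZ h) : KodGeP K N X δ h := by
  choose p hp0 hp using hsl
  obtain ⟨MZ, hMZ, η, hη, E0, hη0, hind⟩ := hZ
  obtain ⟨t, T, T2, hT2, hTM, hT, -⟩ := weights_exist p hp0 d hd one_lt_two MZ hMZ
  have hTpos : 0 < T := by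
    rw [hTM]
    exact Nat.mul_pos hMZ hT2
  obtain ⟨y, E, hyE⟩ := exists_basis_dual hm
  have hbc := basis_co e hyE.1 hbas
  have hN : Algebra.trdeg ℂ K = N := trdeg_of_basis hbc
  obtain ⟨D, hD⟩ := exists_om_ne e (co_ne_zero hx0) hbc
  have hpp : ppm e ℓ (co y x) p t T D ≠ 0 := by
    unfold ppm
    exact div_ne_zero (pow_ne_zero _ hD) (densm_ne (x := co y x) hlx p t)
  obtain ⟨T3, rfl⟩ : ∃ T3, T2 = T3 + 1 := ⟨T2 - 1, by omega⟩
  -- the forms of `Z`
  obtain ⟨θ, hθdef⟩ : ∃ θ : Fin (h + 1) → (Fin (n 0) → Derivation ℂ F F) → F,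
    θ = fun j E' => η 0 E' ^ T3 * η j E' := ⟨_, rfl⟩
  have hθ : ∀ j, IsPluri T (θ j) := by
    intro j A E'
    rw [hθdef]
    change η 0 _ ^ T3 * η j _ = A.det ^ T * (η 0 E' ^ T3 * η j E')
    rw [(hη 0).1 A E', (hη j).1 A E', hTM]
    ring
  have hθw : ∀ j (w : Place ℂ F), Divisorial (n 0) w → ∀ E' : Fin (n 0) → Derivation ℂ F F,
      (∀ i, DerReg w (E' i)) → RGe w (-(T * δZ w)) (θ j E') := by
    intro j w hw E' hE'
    rw [hθdef]
    have h1 := (hη 0).2 w (Set.mem_univ _) hw E' hE'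
    have h2 := (hη j).2 w (Set.mem_univ _) hw E' hE'
    refine ((h1.pow T3).mul h2).mono (le_of_eq ?_)
    rw [hTM]
    push_cast
    ring
  -- the values at the dual basis
  obtain ⟨c, hc⟩ : ∃ c : F, c = (Matrix.of fun i l => E0 i (y l)).det ^ MZ := ⟨_, rfl⟩
  have hηE : ∀ j, η j E0 = c * η j E := by
    intro j
    have h1 : E0 = fun i => ∑ l, (Matrix.of fun i l => E0 i (y l)) i l • E l := by
      funext i
      exact hyE.expand (E0 i)
    rw [hc, ← (hη j).1, ← h1]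
  have hc0 : c ≠ 0 := by
    intro h0
    apply hη0
    rw [hηE, h0, zero_mul]
  have hη1 : η 0 E ≠ 0 := by
    intro h0
    apply hη0
    rw [hηE, h0, mul_zero]
  have hθ1 : θ 0 E ≠ 0 := by
    rw [hθdef]
    exact mul_ne_zero (pow_ne_zero _ hη1) hη1
  have hρ : AlgebraicIndependent ℂ (fun i : Fin h => θ i.succ E / θ 0 E) := by
    have h1 : (fun i : Fin h => θ i.succ E / θ 0 E) =
        fun i : Fin h => η i.succ E0 / η 0 E0 := by
      funext i
      rw [hθdef, hηE, hηE, mul_div_mul_left _ _ hc0, mul_div_mul_left _ _ (pow_ne_zero _ hη1)]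
    rw [h1]
    exact hind
  have hθK : algebraMap F K (θ 0 E) ≠ 0 := by simpa using hθ1
  refine ⟨T, hTpos, fun b D => algebraMap F K (θ b E) * ppm e ℓ (co y x) p t T D,
    fun b => ⟨?_, ?_⟩, D, ?_, ?_⟩
  · intro A D'
    change _ * ppm e ℓ (co y x) p t T _ = _
    rw [ppm_pluri e (co y x) p t T A D']
    ring
  · intro P hPX hPd D hD
    by_cases hdom : Dom F P
    · have h1 := non_hor e d hd p hp hspan t T hT hlx hx0 hyE.1 hbas P (hδ P hPX) hdom
        (fun a v hn hv => by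
          obtain ⟨k, hk⟩ := hP P hPX hPd hdom a v hn hv
          exact ⟨k, by linarith⟩) D hD
      have h2 : RGe P 0 (algebraMap F K (θ b E)) := Or.inr (by
        rw [hdom]
        simp)
      exact (h2.mul h1).mono (by linarith)
    · unfold Dom at hdom
      push Not at hdom
      obtain ⟨ε, w, hov⟩ := exists_over (K := F) P hdom
      exact non_ver e hm hN d hd p hp hspan t T hT hlx hx0 hyE hbas P hPd w ε hov
        (fun a v hn => hV P hPX hPd w ε hov a v hn) (hθ _)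
        (hθw _ w (Pool.Agent.W419.PG.main ℂ F K (n 0) N w P ε hm hN hov hPd)) D hD
  · exact mul_ne_zero hθK hpp
  · have e1 : (fun i : Fin h => (algebraMap F K (θ i.succ E) * ppm e ℓ (co y x) p t T D) /
        (algebraMap F K (θ 0 E) * ppm e ℓ (co y x) p t T D)) =
        (Algebra.ofId F K).restrictScalars ℂ ∘ fun i : Fin h => θ i.succ E / θ 0 E := by
      funext i
      rw [mul_div_mul_right _ _ hpp]
      simp [Algebra.ofId_apply]
    change AlgebraicIndependent ℂ (fun i : Fin h =>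
      (algebraMap F K (θ i.succ E) * ppm e ℓ (co y x) p t T D) /
        (algebraMap F K (θ 0 E) * ppm e ℓ (co y x) p t T D))
    rw [e1]
    exact hρ.map' (f := (Algebra.ofId F K).restrictScalars ℂ) (algebraMap F K).injective

end main

section fin

variable {r m : ℕ} {n : Fin r → ℕ} {F K : Type} [Field F] [Field K] [Algebra ℂ F]
  [Algebra ℂ K] [Algebra F K] [IsScalarTower ℂ F K] {q : Fin r → ℕ}
  {ℓ : ∀ i : Fin r, Fin (q i) → Form (n i)} {x : ∀ i : Fin r, Fin (n i + 1) → K}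

theorem non_final [Algebra.EssFiniteType ℂ F] (hn : ∀ i, 1 ≤ n i) (hℓ : ∀ i k, ℓ i k ≠ 0)
    (hr : ∀ i, ¬ Reducible (ℓ i))
    {d : Fin r → ℕ} (hd : ∀ i, d i = n i + 2 ∨ (d i = n i + 1 ∧ ¬ Simplicial (ℓ i)))
    (hm : Algebra.trdeg ℂ F = m) (hx0 : ∀ i, x i 0 ≠ 0)
    (hbas : IsTranscendenceBasis F (aff x))
    (X : Set (Place ℂ K)) (δ : Place ℂ K → ℝ) (hδ : ∀ P ∈ X, 0 ≤ δ P)
    (hP : HorC (n := Fin.cons (α := fun _ => ℕ) m n) F (m + ∑ i, n i) ℓ x X δ d 1)
    (δZ : Place ℂ F → ℝ)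
    (hV : VerC (n := Fin.cons (α := fun _ => ℕ) m n) (m + ∑ i, n i) ℓ x X δ δZ d 1) {h : ℕ}
    (hZ : KodGeP F m Set.univ δZ h) : KodGeP K (m + ∑ i, n i) X δ h := by
  have hN : ∑ i, (Fin.cons (α := fun _ => ℕ) m n : Fin (r + 1) → ℕ) i = m + ∑ i, n i := by
    rw [Fin.sum_univ_succ]
    rfl
  refine non_main (n := Fin.cons (α := fun _ => ℕ) m n) (finSigmaFinEquiv.trans (finCongr hN))
    hm d (fun i => ?_)
    (fun i => Pool.Agent.W392.CG.span_top (hn i) (ℓ i) (hr i)) (slack_of hn hℓ hr hd)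
    (lx_ne hℓ hx0 hbas) hx0 hbas X δ hδ hP δZ hV hZ
  rcases hd i with h' | h' <;> omega

theorem ver_zero' (hn : ∀ i, 1 ≤ n i) (hr : ∀ i, ¬ Reducible (ℓ i)) {d : Fin r → ℕ}
    (X : Set (Place ℂ K)) (δ : Place ℂ K → ℝ) (hδ : ∀ P ∈ X, 0 ≤ δ P)
    (N : ℕ) : VerC (n := Fin.cons (α := fun _ => ℕ) m n) N ℓ x X δ
      (fun _ : Place ℂ F => (0 : ℝ)) d 1 := by
  intro P hPX _ w ε hov a v _
  have B0 : ∀ i, Bases (ℓ i) := fun i =>
    Classical.choice (exists_bases (Pool.Agent.W392.CG.span_top (hn i) (ℓ i) (hr i)))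
  refine ⟨fun i => (B0 i).1 0, ?_⟩
  have h1 : (1 : ℝ) ≤ ε := by exact_mod_cast hov.1
  have h2 : 0 ≤ ∑ i, (v i ((B0 i).1 0) : ℝ) / d i := by positivity
  have h3 := hδ P hPX
  linarith

end fin

end Pool.Agent.TH210.MP
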