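import Pool.Agent.TH210.MP.Frm

/-!
The orders of the forms on a variety with a generically finite map to the product of a variety and
projective spaces (helper210).
-/

set_option autoImplicit false

open FF Module Pool.Agent.W603.LV Pool.Agent.W602.GT Pool.Agent.W602.Cov Pool.Agent.W602.Cov.G
open Pool.Agent.W168.CG.PGR Pool.Agent.TH152.AC Pool.Agent.TH756.AR Pool.Agent.TH756.PR
open Pool.Agent.TH143.GT

namespace Pool.Agent.TH210.MP

variable {r N : ℕ} {n : Fin (r + 1) → ℕ} {K : Type} [Field K] [Algebra ℂ K]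
  (e : ((i : Fin (r + 1)) × Fin (n i)) ≃ Fin N) {q : Fin r → ℕ}
  {ℓ : ∀ i : Fin r, Fin (q i) → Form (n i.succ)}

/-- the form in the coordinates of the projective spaces -/
noncomputable def ppm (ℓ : ∀ i : Fin r, Fin (q i) → Form (n i.succ))
    (x : ∀ i : Fin (r + 1), Fin (n i + 1) → K)
    (p : ∀ i, Bases (ℓ i) → ℕ) (t : Fin r → ℕ) (T : ℕ) (D : Fin N → Derivation ℂ K K) : K :=
  om e D x ^ T / ∏ i : Fin r, den (ℓ i) (x i.succ) (p i) (t i)

theorem densm_ne {x : ∀ i : Fin (r + 1), Fin (n i + 1) → K}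
    (hx : ∀ (i : Fin r) k, lf (ℓ i k) (x i.succ) ≠ 0)
    (p : ∀ i, Bases (ℓ i) → ℕ) (t : Fin r → ℕ) :
    ∏ i : Fin r, den (ℓ i) (x i.succ) (p i) (t i) ≠ 0 :=
  Finset.prod_ne_zero_iff.2 fun i _ => den_ne (hx i) (p i) (t i)

theorem ppm_pluri (x : ∀ i : Fin (r + 1), Fin (n i + 1) → K) (p : ∀ i, Bases (ℓ i) → ℕ)
    (t : Fin r → ℕ) (T : ℕ) : IsPluri T (ppm e ℓ x p t T) := by
  intro A D
  unfold ppm
  rw [om_lin, mul_pow]
  ring

theorem ppm_ord (d : Fin r → ℕ) (hd : ∀ i, 1 ≤ d i) (p : ∀ i, Bases (ℓ i) → ℕ)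
    (hp : ∀ i, ∀ F : Finset (Fin (q i)), Proper (ℓ i) F →
      d i * (∑ B, p i B * cnt B.1 F) + ∑ B, p i B ≤ d i * ((∑ B, p i B) * rk (ℓ i) F))
    (hspan : ∀ i, Submodule.span ℂ (Set.range (ℓ i)) = ⊤) (t : Fin r → ℕ) (T : ℕ)
    (hT : ∀ i, t i * ∑ B, p i B = T) {x : ∀ i : Fin (r + 1), Fin (n i + 1) → K}
    (hlx : ∀ (i : Fin r) k, lf (ℓ i k) (x i.succ) ≠ 0) (hx0 : ∀ i, x i 0 ≠ 0)
    (hbas : IsTranscendenceBasis ℂ (uu e x)) (P : Place ℂ K)
    (D : Fin N → Derivation ℂ K K) (A A' : ℤ)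
    (h1 : ∀ f : ∀ i, Fin (n i + 1) → K, f 0 = x 0 → (∀ (i : Fin r) j, f i.succ j ≠ 0) →
      Ge P ((∑ i : Fin r, ∑ j, P.ord (f i.succ j)) + A) (om e D f))
    (h2 : ∀ (f : ∀ i, Fin (n i + 1) → K) (a : Fin r → ℤ), f 0 = x 0 →
      (∀ (i : Fin r) j, f i.succ j ≠ 0) → (∀ (i : Fin r) j, P.ord (f i.succ j) = a i) →
      Ge P ((∑ i : Fin r, ((n i.succ : ℤ) + 1) * a i) + A') (om e D f)) :
    ∃ (a : Fin r → ℤ) (v : ∀ i, Fin (q i) → ℕ),
      (∀ i k, P.ord (lf (ℓ i k) (x i.succ)) = a i + v i k) ∧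
      (∀ (i : Fin r) j, Ge P (a i) (x i.succ j)) ∧
      (∀ i, Submodule.span ℂ (ℓ i '' {k | v i k ≠ 0}) ≠ ⊤) ∧
      ∃ c : ℤ, Ge P c (ppm e ℓ x p t T D) ∧
        (((∀ i, v i = 0) ∧ T * A' ≤ c) ∨ ((∃ i, v i ≠ 0) ∧ ∀ k : ∀ i, Fin (q i),
          (T : ℚ) * ∑ i, (v i (k i) : ℚ) / d i + T * A ≤ c)) := by
  choose a v B' hv hx hsp hB using fun i : Fin r =>
    factor (x := x i.succ) (d i) (p i) (hp i) (hspan i) (hlx i) P
  refine ⟨a, v, hv, hx, hsp, ?_⟩
  -- the coordinates of the bases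
  obtain ⟨c, hc0, hc⟩ : ∃ c : ∀ i : Fin (r + 1), Matrix (Fin (n i + 1)) (Fin (n i + 1)) ℂ,
    c 0 = 1 ∧ ∀ i : Fin r, c i.succ =
      Matrix.of fun j l : Fin (n i.succ + 1) => ℓ i ((B' i).1 j) (Pi.single l 1) :=
    ⟨Fin.cons (α := fun i : Fin (r + 1) => Matrix (Fin (n i + 1)) (Fin (n i + 1)) ℂ) 1
      (fun i => Matrix.of fun j l : Fin (n i.succ + 1) => ℓ i ((B' i).1 j) (Pi.single l 1)),
      rfl, fun i => rfl⟩
  have hdet : ∀ i, (c i).det ≠ 0 := by
    refine Fin.cases ?_ fun i => ?_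
    · rw [hc0, Matrix.det_one]
      exact one_ne_zero
    · rw [hc]
      exact det_ne_zero (m := fun j => ℓ i ((B' i).1 j)) (B' i).2
  have hf : ∀ (i : Fin r) j, chg c x i.succ j = lf (ℓ i ((B' i).1 j)) (x i.succ) := by
    intro i j
    unfold chg
    rw [hc]
    rfl
  have hf0 : chg c x 0 = x 0 := by
    funext j
    unfold chg
    rw [hc0, Finset.sum_eq_single j]
    · rw [Matrix.one_apply_eq, map_one, one_mul]
    · intro l _ hl
      rw [Matrix.one_apply_ne (Ne.symm hl), map_zero, zero_mul]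
    · intro h
      exact absurd (Finset.mem_univ j) h
  have hfne : ∀ (i : Fin r) j, chg c x i.succ j ≠ 0 := fun i j => by
    rw [hf]
    exact hlx i _
  have hfne0 : ∀ i, chg c x i 0 ≠ 0 := by
    refine Fin.cases ?_ fun i => hfne i 0
    rw [hf0]
    exact hx0 0
  have hchg := om_change e hx0 hbas c hfne0 D
  have hprod : (∏ i, (c i).det) ≠ 0 := Finset.prod_ne_zero_iff.2 fun i _ => hdet i
  have hback : ∀ L : ℤ, Ge P L (om e D (chg c x)) → Ge P L (om e D x) := by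
    intro L hL
    rw [hchg] at hL
    have h4 := (Ge.const (P := P) (∏ i, (c i).det)⁻¹).mul hL
    rw [← mul_assoc, ← map_mul, inv_mul_cancel₀ hprod, map_one, one_mul, zero_add] at h4
    exact h4
  have hordf : ∀ (i : Fin r) j, P.ord (chg c x i.succ j) = a i + v i ((B' i).1 j) :=
    fun i j => by rw [hf, hv]
  have hden : P.ord (∏ i : Fin r, den (ℓ i) (x i.succ) (p i) (t i)) =
      ∑ i, (t i : ℤ) * ∑ B, (p i B : ℤ) * ∑ b, (a i + v i (B.1 b)) := by
    rw [ord_prod' P Finset.univ _ fun i _ => den_ne (hlx i) (p i) (t i)]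
    refine Finset.sum_congr rfl fun i _ => ?_
    rw [ord_den P (hlx i)]
    simp only [hv]
  have hterm : ∀ i : Fin r, (t i : ℤ) * ∑ B, (p i B : ℤ) * ∑ b, (a i + v i (B.1 b)) =
      T * (((n i.succ : ℤ) + 1) * a i) + t i * ∑ B, (p i B : ℤ) * ∑ b, (v i (B.1 b) : ℤ) := by
    intro i
    have e1 : ∀ B : Bases (ℓ i), ∑ b, (a i + (v i (B.1 b) : ℤ)) =
        ((n i.succ : ℤ) + 1) * a i + ∑ b, (v i (B.1 b) : ℤ) := by
      intro B
      rw [Finset.sum_add_distrib, Finset.sum_const, Finset.card_univ, Fintype.card_fin]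
      simp
    simp only [e1, mul_add, Finset.sum_add_distrib]
    rw [← Finset.sum_mul, ← mul_assoc (t i : ℤ), ← hT i]
    push_cast
    ring
  by_cases hv0 : ∀ i, v i = 0
  · have h5 : Ge P ((∑ i : Fin r, ((n i.succ : ℤ) + 1) * a i) + A') (om e D x) := by
      refine hback _ (h2 _ a hf0 hfne fun i j => ?_)
      rw [hordf, hv0 i]
      simp
    have h6 := ge_div (densm_ne hlx p t) (h5.pow T)
    rw [hden] at h6
    refine ⟨_, h6, Or.inl ⟨hv0, ?_⟩⟩
    rw [Finset.sum_congr rfl fun i _ => hterm i]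
    refine le_of_eq ?_
    simp only [hv0, Pi.zero_apply, Nat.cast_zero, Finset.sum_const_zero, mul_zero, add_zero,
      Finset.mul_sum, mul_add]
    ring
  · push Not at hv0
    have h5 := hback _ (h1 _ hf0 hfne)
    have h6 := ge_div (densm_ne hlx p t) (h5.pow T)
    rw [hden] at h6
    refine ⟨_, h6, Or.inr ⟨hv0, fun k => ?_⟩⟩
    -- the inequality for each factor
    have h7 : ∀ i, (T : ℚ) * ((v i (k i) : ℚ) / d i) ≤
        T * ∑ b, (v i ((B' i).1 b) : ℚ) - t i * ∑ B, (p i B : ℚ) * ∑ b, (v i (B.1 b) : ℚ) := by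
      intro i
      have h8 := hB i (k i)
      have h9 : (d i : ℚ) * (∑ B, (p i B : ℚ) * ∑ b, (v i (B.1 b) : ℚ)) +
          (∑ B, (p i B : ℚ)) * v i (k i) ≤
          d i * ((∑ B, (p i B : ℚ)) * ∑ b, (v i ((B' i).1 b) : ℚ)) := by
        exact_mod_cast h8
      have hdi : (0 : ℚ) < d i := by exact_mod_cast hd i
      have hTi : (T : ℚ) = t i * ∑ B, (p i B : ℚ) := by
        rw [← hT i]
        push_cast
        rfl
      have h10 := mul_le_mul_of_nonneg_left h9 (by positivity : (0 : ℚ) ≤ t i)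
      rw [mul_div_assoc', div_le_iff₀ hdi, hTi]
      nlinarith [h10]
    have h11 : (T : ℚ) * ∑ i, (v i (k i) : ℚ) / d i ≤ ∑ i, ((T : ℚ) *
        ∑ b, (v i ((B' i).1 b) : ℚ) - t i * ∑ B, (p i B : ℚ) * ∑ b, (v i (B.1 b) : ℚ)) := by
      rw [Finset.mul_sum]
      exact Finset.sum_le_sum fun i _ => h7 i
    refine (add_le_add_left h11 _).trans (le_of_eq ?_)
    simp only [hterm, hordf]
    have e2 : ∀ i : Fin r, ∑ j : Fin (n i.succ + 1), (a i + (v i ((B' i).1 j) : ℤ)) =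
        ((n i.succ : ℤ) + 1) * a i + ∑ b, (v i ((B' i).1 b) : ℤ) := by
      intro i
      rw [Finset.sum_add_distrib, Finset.sum_const, Finset.card_univ, Fintype.card_fin]
      simp
    simp only [e2]
    push_cast
    simp only [Finset.sum_add_distrib, Finset.sum_sub_distrib, Finset.mul_sum, mul_add, mul_sub]
    ring

end Pool.Agent.TH210.MP
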