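import Pool.Agent.TH210.MP.Est

/-!
The sections at the prime divisors which dominate `Z`, and at the other ones (helper210).
-/

set_option autoImplicit false

open FF Module Pool.Agent.W603.LV Pool.Agent.W602.GT Pool.Agent.W602.Cov Pool.Agent.W602.Cov.G
open Pool.Agent.W168.CG.PGR Pool.Agent.TH152.AC Pool.Agent.TH756.AR Pool.Agent.TH756.PR
open Pool.Agent.TH143.GT

namespace Pool.Agent.TH210.MP

variable {r N : ℕ} {n : Fin (r + 1) → ℕ} {F K : Type} [Field F] [Field K] [Algebra ℂ F]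
  [Algebra ℂ K] [Algebra F K] [IsScalarTower ℂ F K]
  (e : ((i : Fin (r + 1)) × Fin (n i)) ≃ Fin N) {q : Fin r → ℕ}
  {ℓ : ∀ i : Fin r, Fin (q i) → Form (n i.succ)}
  {y : Fin (n 0) → F} {x : ∀ i : Fin r, Fin (n i.succ + 1) → K}

/-- the multiplicities are large, the part of `Z` is `β` -/
def Lg (d : Fin r → ℕ) (s δ β : ℝ) (v : ∀ i, Fin (q i) → ℕ) : Prop :=
  ∃ k : ∀ i, Fin (q i), s * (1 - δ) ≤ s * β + ∑ i, (v i (k i) : ℝ) / d i

/-- the factor of the section -/
noncomputable def fac (ℓ : ∀ i : Fin r, Fin (q i) → Form (n i.succ))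
    (x : ∀ i : Fin r, Fin (n i.succ + 1) → K) (k0 : ∀ i, Fin (q i))
    (pk : ∀ i : Fin r, Fin (n i.succ + 1)) : K :=
  ∏ i, x i (pk i) / lf (ℓ i (k0 i)) (x i)

/-- **The prime divisors which dominate `Z`.** -/
theorem sec_hor (d : Fin r → ℕ) (hd : ∀ i, 1 ≤ d i) (p : ∀ i, Bases (ℓ i) → ℕ)
    (hp : ∀ i, ∀ F : Finset (Fin (q i)), Proper (ℓ i) F →
      d i * (∑ B, p i B * cnt B.1 F) + ∑ B, p i B ≤ d i * ((∑ B, p i B) * rk (ℓ i) F))
    (hspan : ∀ i, Submodule.span ℂ (Set.range (ℓ i)) = ⊤) (t : Fin r → ℕ) (T : ℕ)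
    (hT : ∀ i, t i * ∑ B, p i B = T) (hlx : ∀ (i : Fin r) k, lf (ℓ i k) (x i) ≠ 0)
    (hx0 : ∀ i, x i 0 ≠ 0) (hy : IsTranscendenceBasis ℂ y)
    (hbas : IsTranscendenceBasis F (aff (n := fun i : Fin r => n i.succ) x))
    (k0 : ∀ i, Fin (q i)) (pk : ∀ i : Fin r, Fin (n i.succ + 1)) {s : ℝ} (hs : 1 < s)
    (hdT : ∀ i, (d i : ℝ) ≤ T * (1 - 1 / s)) (P : Place ℂ K) {δ : ℝ} (hδ : 0 ≤ δ)
    (hhor : ∀ g : F, P.ord (algebraMap F K g) = 0)
    (hP : ∀ a v, Nrm (n := fun i : Fin r => n i.succ) ℓ x P a v → (∃ i, v i ≠ 0) →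
      Lg d s δ 0 v)
    (D : Fin N → Derivation ℂ K K) (hD : ∀ i, DerReg P (D i)) :
    RGe P (-(T * δ)) (ppm e ℓ (co y x) p t T D * fac ℓ x k0 pk) := by
  have hbc := basis_co e hy hbas
  have hy0 : ∀ b, algebraMap F K (y b) ≠ 0 := fun b => by
    have h1 : y b ≠ 0 := hy.1.ne_zero b
    simpa using h1
  have hfz : ∀ f : ∀ i, Fin (n i + 1) → K, f 0 = co y x 0 → (∀ j, f 0 j ≠ 0) ∧
      ∀ j, P.ord (f 0 j) = 0 := by
    intro f hf
    rw [hf]
    refine ⟨Fin.cases ?_ fun b => ?_, Fin.cases ?_ fun b => ?_⟩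
    · rw [co_zero_zero]
      exact one_ne_zero
    · rw [co_zero_succ]
      exact hy0 b
    · rw [co_zero_zero, P.ord_one]
    · rw [co_zero_succ]
      exact hhor _
  obtain ⟨a, v, hv, hx, hsp, c, hc, hc2⟩ := ppm_ord e d hd p hp hspan t T hT
    (x := co y x) hlx (co_ne_zero hx0) hbc P D (-1) 0 (fun f hf0 hf => by
      have hall : ∀ i j, f i j ≠ 0 := by
        intro i
        revert i
        exact Fin.cases (hfz f hf0).1 hf
      have h1 := om_ge_reg e P D hD hall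
      rw [Fin.sum_univ_succ, Finset.sum_eq_zero fun j _ => (hfz f hf0).2 j, zero_add] at h1
      exact h1) (fun f a hf0 hf ha => by
      have hall : ∀ i j, f i j ≠ 0 := by
        intro i
        revert i
        exact Fin.cases (hfz f hf0).1 hf
      have h1 := om_ge_unit e P D hD hall (Fin.cons (α := fun _ => ℤ) 0 a) (by
        intro i
        revert i
        exact Fin.cases (hfz f hf0).2 ha)
      rw [Fin.sum_univ_succ] at h1
      simpa using h1)
  have h7 := ge_quot (n := fun i : Fin r => n i.succ) (x := x) hlx hv hx k0 pk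
  refine ((RGe.of_ge hc).mul h7).mono ?_
  have hT0 : (0 : ℝ) ≤ T := Nat.cast_nonneg _
  rcases hc2 with ⟨hv0, h0⟩ | ⟨hv0, h1⟩
  · have h2 : (0 : ℝ) ≤ c := by
      rw [mul_zero] at h0
      exact_mod_cast h0
    have h3 := mul_nonneg hT0 hδ
    have h4 : ∑ i, (v i (k0 i) : ℝ) = 0 := by simp [hv0]
    rw [h4]
    linarith
  · have hn := nrm (n := fun i : Fin r => n i.succ) (x := x) hspan hlx hv hsp
    have h2 := num_est d hd v k0 (T := T) (s := s) (c := c) (β := 0) (δ := δ) hT0 hs hdT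
      (fun k => by
        have h3 := cast_sum' d v k (h1 k)
        push_cast at h3
        linarith) (hP a v hn hv0)
    linarith

/-- **The prime divisors which do not dominate `Z`.** -/
theorem sec_ver [Algebra.EssFiniteType ℂ F] (hm : Algebra.trdeg ℂ F = n 0)
    (hN : Algebra.trdeg ℂ K = N) (d : Fin r → ℕ) (hd : ∀ i, 1 ≤ d i)
    (p : ∀ i, Bases (ℓ i) → ℕ)
    (hp : ∀ i, ∀ F : Finset (Fin (q i)), Proper (ℓ i) F →
      d i * (∑ B, p i B * cnt B.1 F) + ∑ B, p i B ≤ d i * ((∑ B, p i B) * rk (ℓ i) F))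
    (hspan : ∀ i, Submodule.span ℂ (Set.range (ℓ i)) = ⊤) (t : Fin r → ℕ) (T : ℕ)
    (hT : ∀ i, t i * ∑ B, p i B = T) (hlx : ∀ (i : Fin r) k, lf (ℓ i k) (x i) ≠ 0)
    (hx0 : ∀ i, x i 0 ≠ 0) {E : Fin (n 0) → Derivation ℂ F F} (hyE : Dual y E)
    (hbas : IsTranscendenceBasis F (aff (n := fun i : Fin r => n i.succ) x))
    (k0 : ∀ i, Fin (q i)) (pk : ∀ i : Fin r, Fin (n i.succ + 1)) {s : ℝ} (hs : 1 < s)
    (hdT : ∀ i, (d i : ℝ) ≤ T * (1 - 1 / s)) (P : Place ℂ K) (hPd : Divisorial N P) {δ : ℝ}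
    (w : Place ℂ F) (ε : ℕ) (hov : Over P w ε) {δZ : ℝ}
    (hP : ∀ a v, Nrm (n := fun i : Fin r => n i.succ) ℓ x P a v →
      Lg d s δ (ε * (1 - δZ)) v)
    {θ : (Fin (n 0) → Derivation ℂ F F) → F} (hθ : IsPluri T θ)
    (hθw : ∀ E' : Fin (n 0) → Derivation ℂ F F, (∀ i, DerReg w (E' i)) →
      RGe w (-(T * δZ)) (θ E'))
    (D : Fin N → Derivation ℂ K K) (hD : ∀ i, DerReg P (D i)) :
    RGe P (-(T * δ)) (algebraMap F K (θ E) * (ppm e ℓ (co y x) p t T D * fac ℓ x k0 pk)) := by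
  have hw : Divisorial (n 0) w := Pool.Agent.W419.PG.main ℂ F K (n 0) N w P ε hm hN hov hPd
  obtain ⟨y', E', i0, hb', hE', hi0, hy'r, hpres⟩ := Pool.Agent.W240.PG.Frame.main
    Pool.Agent.W762.PG.main ℂ F (n 0) hm (fun y hy => fin_adjoin y hy) w hw
  have h' : Dual y' E' := ⟨hb', hE'⟩
  have hbc := basis_co e hb' hbas
  have hy0 : ∀ b, algebraMap F K (y' b) ≠ 0 := fun b => by
    have h1 : y' b ≠ 0 := hb'.1.ne_zero b
    simpa using h1
  have hfz : ∀ f : ∀ i, Fin (n i + 1) → K, f 0 = co y' x 0 → (∀ j, f 0 j ≠ 0) ∧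
      (ε : ℤ) ≤ ∑ j, P.ord (f 0 j) := by
    intro f hf
    rw [hf]
    constructor
    · refine Fin.cases ?_ fun b => ?_
      · rw [co_zero_zero]
        exact one_ne_zero
      · rw [co_zero_succ]
        exact hy0 b
    · rw [Fin.sum_univ_succ, co_zero_zero, P.ord_one, zero_add]
      have h1 : ∀ b : Fin (n 0), 0 ≤ P.ord (co y' x 0 b.succ) := by
        intro b
        rw [co_zero_succ]
        rcases hov.reg.2 (hy'r b) with h2 | h2
        · exact absurd h2 (hy0 b)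
        · exact h2
      have h2 : P.ord (co y' x 0 i0.succ) = ε := by
        rw [co_zero_succ, hov.2, hi0, mul_one]
      rw [← h2]
      exact Finset.single_le_sum (f := fun b : Fin (n 0) => P.ord (co y' x 0 b.succ))
        (fun b _ => h1 b) (Finset.mem_univ i0)
  have hall : ∀ f : ∀ i, Fin (n i + 1) → K, f 0 = co y' x 0 →
      (∀ (i : Fin r) j, f i.succ j ≠ 0) → ∀ i j, f i j ≠ 0 := by
    intro f hf0 hf i
    revert i
    exact Fin.cases (hfz f hf0).1 hf
  obtain ⟨a, v, hv, hx, hsp, c, hc, hc2⟩ := ppm_ord e d hd p hp hspan t T hT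
    (x := co y' x) hlx (co_ne_zero hx0) hbc P D (ε - 1) (ε - 1) (fun f hf0 hf => by
      have h1 := om_ge_reg e P D hD (hall f hf0 hf)
      rw [Fin.sum_univ_succ] at h1
      refine h1.mono ?_
      have h2 := (hfz f hf0).2
      push_cast
      linarith) (fun f a hf0 hf ha => by
      have h1 := om_ge_reg e P D hD (hall f hf0 hf)
      rw [Fin.sum_univ_succ] at h1
      refine h1.mono ?_
      have h2 := (hfz f hf0).2
      have h3 : ∀ i : Fin r, ∑ j, P.ord (f i.succ j) = ((n i.succ : ℤ) + 1) * a i := by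
        intro i
        rw [Finset.sum_congr rfl fun j _ => ha i j, Finset.sum_const, Finset.card_univ,
          Fintype.card_fin]
        simp
      rw [Finset.sum_congr rfl fun i _ => h3 i]
      push_cast
      linarith)
  -- the form of `Z` in the new coordinates
  obtain ⟨J, hJ⟩ : ∃ J : F, J = (Matrix.of fun c b => E' c (y b)).det := ⟨_, rfl⟩
  have hθJ : θ E' = J ^ T * θ E := by
    have h1 : E' = fun c => ∑ b, (Matrix.of fun c b => E' c (y b)) c b • E b := by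
      funext c
      exact hyE.expand (E' c)
    rw [hJ, ← hθ, ← h1]
  have hpp : algebraMap F K (θ E) * ppm e ℓ (co y x) p t T D =
      algebraMap F K (θ E') * ppm e ℓ (co y' x) p t T D := by
    have h1 : om e D (co y x) = algebraMap F K J * om e D (co y' x) := by
      rw [hJ]
      exact om_frame e h' hbc D
    unfold ppm
    rw [h1, hθJ, map_mul, map_pow]
    have h2 : ∏ i : Fin r, den (ℓ i) (co y x i.succ) (p i) (t i) =
        ∏ i : Fin r, den (ℓ i) (co y' x i.succ) (p i) (t i) := rfl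
    rw [h2, mul_pow]
    ring
  rw [← mul_assoc, hpp]
  -- the order of the form of `Z`
  have hZ : RGe P (-(T * (ε * δZ))) (algebraMap F K (θ E')) := by
    rcases hθw E' hpres with h1 | h1
    · exact Or.inl (by rw [h1, map_zero])
    · right
      rw [hov.2]
      push_cast
      have h2 : (0 : ℝ) ≤ ε := Nat.cast_nonneg _
      have h3 := mul_le_mul_of_nonneg_left h1 h2
      linarith
  have h7 := ge_quot (n := fun i : Fin r => n i.succ) (x := x) hlx hv hx k0 pk
  refine ((hZ.mul (RGe.of_ge hc)).mul h7).mono ?_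
  have hT0 : (0 : ℝ) ≤ T := Nat.cast_nonneg _
  have hn := nrm (n := fun i : Fin r => n i.succ) (x := x) hspan hlx hv hsp
  have hE : ∀ k : ∀ i, Fin (q i), (T : ℝ) * ∑ i, (v i (k i) : ℝ) / d i + T * (ε - 1) ≤ c := by
    intro k
    rcases hc2 with ⟨hv0, h0⟩ | ⟨-, h1⟩
    · have h2 : ((T * (ε - 1) : ℤ) : ℝ) ≤ c := by exact_mod_cast h0
      push_cast at h2
      have h3 : ∑ i, (v i (k i) : ℝ) / d i = 0 :=
        Finset.sum_eq_zero fun i _ => by rw [hv0 i]; simp
      rw [h3]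
      linarith
    · have h3 := cast_sum' d v k (h1 k)
      push_cast at h3
      exact h3
  have h2 := num_est d hd v k0 (T := T) (s := s) (c := c - T * (ε * δZ)) (β := ε * (1 - δZ))
    (δ := δ) hT0 hs hdT (fun k => by
      have h3 := hE k
      linarith) (hP a v hn)
  linarith

end Pool.Agent.TH210.MP
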