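import Pool.Agent.TH210.MP.Fin

/-!
Strict inequalities (helper210).
-/

set_option autoImplicit false

open FF Module Pool.Agent.W603.LV Pool.Agent.W602.GT Pool.Agent.W602.Cov Pool.Agent.W602.Cov.G
open Pool.Agent.W168.CG.PGR Pool.Agent.TH152.AC Pool.Agent.TH756.AR Pool.Agent.TH756.PR
open Pool.Agent.TH143.GT Filter Topology

namespace Pool.Agent.TH210.MP

variable {r : ℕ} {n : Fin r → ℕ} {K : Type} [Field K]
  [Algebra ℂ K] {q : Fin r → ℕ}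
  {ℓ : ∀ i : Fin r, Fin (q i) → Form (n i)} {x : ∀ i : Fin r, Fin (n i + 1) → K}

theorem nrm_unique {P : Place ℂ K} {a a' : Fin r → ℤ} {v v' : ∀ i, Fin (q i) → ℕ}
    (h : Nrm ℓ x P a v) (h' : Nrm ℓ x P a' v') : v = v' := by
  have ha : ∀ i, a i = a' i := by
    intro i
    obtain ⟨φ, hφ0, hφ⟩ := h.2.1 i
    obtain ⟨ψ, hψ0, hψ⟩ := h'.2.1 i
    have h1 := (h'.1 i φ).resolve_left hφ0
    have h2 := (h.1 i ψ).resolve_left hψ0
    omega
  funext i k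
  have h1 := h.2.2 i k
  have h2 := h'.2.2 i k
  have h3 := ha i
  omega

theorem over_unique {F : Type} [Field F] [Algebra ℂ F] [Algebra F K] {P : Place ℂ K}
    {w w' : Place ℂ F} {ε ε' : ℕ} (h : Over P w ε) (h' : Over P w' ε') : w = w' ∧ ε = ε' := by
  have h1 : ∀ f, (ε : ℤ) * w.ord f = ε' * w'.ord f := fun f => by rw [← h.2, ← h'.2]
  have hε : ε = ε' := by
    obtain ⟨t, -, ht⟩ := w.surj
    obtain ⟨t', -, ht'⟩ := w'.surj
    have h2 := h1 t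
    have h3 := h1 t'
    rw [ht, mul_one] at h2
    rw [ht', mul_one] at h3
    have h4 : (ε' : ℤ) ∣ ε := ⟨_, h2⟩
    have h5 : (ε : ℤ) ∣ ε' := ⟨_, h3.symm⟩
    exact Nat.dvd_antisymm (by exact_mod_cast h5) (by exact_mod_cast h4)
  subst hε
  refine ⟨?_, rfl⟩
  ext f
  have h2 : (ε : ℤ) ≠ 0 := by
    have := h.1
    omega
  exact mul_left_cancel₀ h2 (h1 f)

/-- finitely many prime divisors lie over the arrangements -/
theorem fin_set (X : Set (Place ℂ K)) (hX : ∀ f : K, f ≠ 0 → {P ∈ X | P.ord f ≠ 0}.Finite)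
    (hspan : ∀ i, Submodule.span ℂ (Set.range (ℓ i)) = ⊤)
    (hlx : ∀ (i : Fin r) k, lf (ℓ i k) (x i) ≠ 0) :
    {P ∈ X | ∃ a v, Nrm ℓ x P a v ∧ ∃ i, v i ≠ 0}.Finite := by
  refine Set.Finite.subset (Set.finite_iUnion fun i : Fin r => Set.finite_iUnion fun k : Fin (q i) =>
    Set.finite_iUnion fun k' : Fin (q i) =>
      hX (lf (ℓ i k) (x i) / lf (ℓ i k') (x i)) (div_ne_zero (hlx i k) (hlx i k'))) ?_
  rintro P ⟨hPX, a, v, hn, i, hi⟩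
  obtain ⟨k, hk⟩ : ∃ k, v i k ≠ 0 := by
    by_contra hcon
    push Not at hcon
    exact hi (funext hcon)
  obtain ⟨k', hk'⟩ : ∃ k', v i k' = 0 := by
    by_contra hcon
    push Not at hcon
    obtain ⟨φ, hφ0, hφ⟩ := hn.2.1 i
    have h3 := ge_span P (a i + 1) (Set.range (ℓ i)) (x i) (by
      rintro _ ⟨k, rfl⟩
      right
      rw [hn.2.2 i]
      have := hcon k
      omega) φ (by rw [hspan i]; trivial)
    rcases h3 with h3 | h3
    · exact hφ0 h3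
    · rw [hφ] at h3
      omega
  refine Set.mem_iUnion.2 ⟨i, Set.mem_iUnion.2 ⟨k, Set.mem_iUnion.2 ⟨k', hPX, ?_⟩⟩⟩
  rw [P.ord_div (hlx i k) (hlx i k'), hn.2.2, hn.2.2, hk']
  omega

theorem near_one {a b c : ℝ} (h : a < b + c) : ∀ᶠ s in 𝓝[>] (1 : ℝ), s * a ≤ s * b + c := by
  have h1 : Tendsto (fun s : ℝ => s * a - s * b) (𝓝[>] (1 : ℝ)) (𝓝 (1 * a - 1 * b)) := by
    refine Tendsto.mono_left ?_ nhdsWithin_le_nhds
    exact ((continuous_id.mul continuous_const).sub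
      (continuous_id.mul continuous_const)).tendsto 1
  have h2 : 1 * a - 1 * b < c := by linarith
  filter_upwards [h1.eventually (gt_mem_nhds h2)] with s hs
  linarith

section main

variable {m N : ℕ} {F : Type} [Field F] [Algebra ℂ F] [Algebra F K]

/-- **The choice of `s`.** -/
theorem exists_s (hn : ∀ i, 1 ≤ n i) (hr : ∀ i, ¬ Reducible (ℓ i)) {d : Fin r → ℕ}
    (hlx : ∀ (i : Fin r) k, lf (ℓ i k) (x i) ≠ 0) (X : Set (Place ℂ K))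
    (hX : ∀ f : K, f ≠ 0 → {P ∈ X | P.ord f ≠ 0}.Finite) (δ : Place ℂ K → ℝ)
    (δZ : Place ℂ F → ℝ)
    (hH : ∀ P ∈ X, Divisorial N P → Dom F P → ∀ a v, Nrm ℓ x P a v → (∃ i, v i ≠ 0) →
      ∃ k : ∀ i, Fin (q i), 1 - δ P < ∑ i, (v i (k i) : ℝ) / d i) :
    ∃ s : ℝ, 1 < s ∧ HorC (n := Fin.cons (α := fun _ => ℕ) m n) F N ℓ x X δ d s ∧
      ((∀ P ∈ X, Divisorial N P → ∀ (w : Place ℂ F) (ε : ℕ), Over P w ε → ∀ a v,
        Nrm ℓ x P a v → ((∀ i, v i = 0) → 1 - δ P ≤ ε * (1 - δZ w)) ∧ ((∃ i, v i ≠ 0) →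
          ∃ k : ∀ i, Fin (q i), 1 - δ P < ε * (1 - δZ w) + ∑ i, (v i (k i) : ℝ) / d i)) →
        VerC (n := Fin.cons (α := fun _ => ℕ) m n) N ℓ x X δ δZ d s) := by
  have hspan : ∀ i, Submodule.span ℂ (Set.range (ℓ i)) = ⊤ := fun i =>
    Pool.Agent.W392.CG.span_top (hn i) (ℓ i) (hr i)
  have B0 : ∀ i, Bases (ℓ i) := fun i => Classical.choice (exists_bases (hspan i))
  have hfin := fin_set X hX hspan hlx
  have h1 : ∀ P ∈ {P ∈ X | ∃ a v, Nrm ℓ x P a v ∧ ∃ i, v i ≠ 0}, ∀ᶠ s in 𝓝[>] (1 : ℝ),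
      (Divisorial N P → Dom F P → ∀ a v, Nrm ℓ x P a v → (∃ i, v i ≠ 0) →
        ∃ k : ∀ i, Fin (q i), s * (1 - δ P) ≤ ∑ i, (v i (k i) : ℝ) / d i) := by
    rintro P ⟨hPX, a, v, hnv, hv⟩
    by_cases hP : Divisorial N P ∧ Dom F P
    · obtain ⟨k, hk⟩ := hH P hPX hP.1 hP.2 a v hnv hv
      have h2 : 1 - δ P < 0 + ∑ i, (v i (k i) : ℝ) / d i := by rwa [zero_add]
      filter_upwards [near_one h2] with s hs _ _ a' v' hnv' _
      obtain rfl := nrm_unique hnv hnv'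
      exact ⟨k, by linarith⟩
    · filter_upwards with s h2 h3
      exact absurd ⟨h2, h3⟩ hP
  by_cases hV : ∀ P ∈ X, Divisorial N P → ∀ (w : Place ℂ F) (ε : ℕ), Over P w ε → ∀ a v,
        Nrm ℓ x P a v → ((∀ i, v i = 0) → 1 - δ P ≤ ε * (1 - δZ w)) ∧ ((∃ i, v i ≠ 0) →
          ∃ k : ∀ i, Fin (q i), 1 - δ P < ε * (1 - δZ w) + ∑ i, (v i (k i) : ℝ) / d i)
  · have h2 : ∀ P ∈ {P ∈ X | ∃ a v, Nrm ℓ x P a v ∧ ∃ i, v i ≠ 0}, ∀ᶠ s in 𝓝[>] (1 : ℝ),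
        (Divisorial N P → ∀ (w : Place ℂ F) (ε : ℕ), Over P w ε → ∀ a v, Nrm ℓ x P a v →
          (∃ i, v i ≠ 0) → ∃ k : ∀ i, Fin (q i),
            s * (1 - δ P) ≤ s * (ε * (1 - δZ w)) + ∑ i, (v i (k i) : ℝ) / d i) := by
      rintro P ⟨hPX, a, v, hnv, hv⟩
      by_cases hP : Divisorial N P ∧ ∃ (w : Place ℂ F) (ε : ℕ), Over P w ε
      · obtain ⟨hPd, w, ε, hov⟩ := hP
        obtain ⟨k, hk⟩ := (hV P hPX hPd w ε hov a v hnv).2 hv
        filter_upwards [near_one hk] with s hs _ w' ε' hov' a' v' hnv' _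
        obtain rfl := nrm_unique hnv hnv'
        obtain ⟨rfl, rfl⟩ := over_unique hov hov'
        exact ⟨k, hs⟩
      · filter_upwards with s h2 w ε hov
        exact absurd ⟨h2, w, ε, hov⟩ hP
    obtain ⟨s, ⟨hs1, hs2⟩, hs3⟩ := (((eventually_all_finite hfin).2 h1).and
      ((eventually_all_finite hfin).2 h2)).and (self_mem_nhdsWithin : Set.Ioi (1 : ℝ) ∈ 𝓝[>] 1)
      |>.exists
    have hs0 : 1 < s := hs3
    refine ⟨s, hs0, fun P hPX hPd hdom a v hnv hv => hs1 P ⟨hPX, a, v, hnv, hv⟩ hPd hdom a v hnv hv,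
      fun _ P hPX hPd w ε hov a v hnv => ?_⟩
    by_cases hv : ∃ i, v i ≠ 0
    · exact hs2 P ⟨hPX, a, v, hnv, hv⟩ hPd w ε hov a v hnv hv
    · push Not at hv
      refine ⟨fun i => (B0 i).1 0, ?_⟩
      have h3 := (hV P hPX hPd w ε hov a v hnv).1 hv
      have h4 : 0 ≤ ∑ i, (v i ((B0 i).1 0) : ℝ) / d i := by positivity
      have h5 := mul_le_mul_of_nonneg_left h3 (by linarith : (0 : ℝ) ≤ s)
      linarith
  · obtain ⟨s, hs1, hs3⟩ := ((eventually_all_finite hfin).2 h1).and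
      (self_mem_nhdsWithin : Set.Ioi (1 : ℝ) ∈ 𝓝[>] 1) |>.exists
    exact ⟨s, hs3, fun P hPX hPd hdom a v hnv hv =>
      hs1 P ⟨hPX, a, v, hnv, hv⟩ hPd hdom a v hnv hv, fun h => absurd h hV⟩

end main

end Pool.Agent.TH210.MP
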